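import Pool.Agent.Y142.ZI.Stm

set_option autoImplicit false

/-! Project Y142-ZS: one more task. -/

open Matrix Polynomial Filter Topology NumberField IsDedekindDomain
open Pool.Agent.Y142.ZO Pool.Agent.Y142.ZI

namespace Pool.Agent.Y142.ZS

/-- task SPL: splitting over `ℚ_ℓ` if the Frobenius element acts trivially on the roots -/
def S_SPL : Prop := ∀ Q : ℚ[X], Q.Monic → Q.Separable →
  ∃ b : ℕ, ∀ ℓ : ℕ, b < ℓ → ∀ _ : Fact ℓ.Prime, ∀ σ : GK ℚ, FrobAt ℓ σ →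
    (∀ x : QQ, aeval x Q = 0 → σ x = x) → (Q.map (algebraMap ℚ ℚ_[ℓ])).Splits

end Pool.Agent.Y142.ZS
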