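import Pool.Agent.Y142.ZS.Stm
import Pool.Agent.Y142.ZS.Stm2
import Pool.Agent.Y142.ZI.Top

/-!
# Project ZS: systems, strong irreducibility and split places
-/

set_option autoImplicit false
set_option linter.style.haveILetI false

open Matrix Polynomial Filter Topology NumberField IsDedekindDomain
open Pool.Agent.Y142.ZO Pool.Agent.Y142.ZI

namespace Pool.Agent.Y142.ZS

/-- restriction of automorphisms of the closure of `ℚ_ℓ` -/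
theorem restrict0 (ℓ : ℕ) [Fact ℓ.Prime] (ι : QQ →+* AlgebraicClosure ℚ_[ℓ])
    (τ : AlgebraicClosure ℚ_[ℓ] ≃ₐ[ℚ_[ℓ]] AlgebraicClosure ℚ_[ℓ]) :
    ∃ σ : GK ℚ, ∀ x : QQ, τ (ι x) = ι (σ x) := by
  let _ : Algebra QQ (AlgebraicClosure ℚ_[ℓ]) := ι.toAlgebra
  have htow : IsScalarTower ℚ QQ (AlgebraicClosure ℚ_[ℓ]) :=
    IsScalarTower.of_algebraMap_eq fun q => by
      rw [eq_ratCast, eq_ratCast, map_ratCast]
  let χ : AlgebraicClosure ℚ_[ℓ] ≃ₐ[ℚ] AlgebraicClosure ℚ_[ℓ] :=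
    AlgEquiv.ofRingEquiv (f := τ.toRingEquiv) fun q => by
      rw [eq_ratCast, map_ratCast]
  have hnorm : Normal ℚ QQ := normalQQ
  let σ : GK ℚ := χ.restrictNormal QQ
  have hσ : ∀ x : QQ, ι (σ x) = τ (ι x) := fun x => χ.restrictNormal_commutes QQ x
  exact ⟨σ, fun x => (hσ x).symm⟩

section
variable {K : Type} [Field K] [NumberField K] {N : ℕ} {S : Set (HeightOneSpectrum (𝓞 K))}
  {P : HeightOneSpectrum (𝓞 K) → ℚ[X]} {q : HeightOneSpectrum (𝓞 K) → ℚ}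

/-- a symplectic `ℓ`-adic representation with Frobenius polynomials `P v` and multipliers `q v` -/
def SpSys (K : Type) [Field K] [NumberField K] (N ℓ : ℕ) [Fact ℓ.Prime]
    (ρ : GK K →* Matrix (Fin N) (Fin N) ℚ_[ℓ]) (J : Matrix (Fin N) (Fin N) ℚ_[ℓ])
    (S : Set (HeightOneSpectrum (𝓞 K))) (P : HeightOneSpectrum (𝓞 K) → ℚ[X])
    (q : HeightOneSpectrum (𝓞 K) → ℚ) : Prop :=
  Continuous ρ ∧ Jᵀ = -J ∧ J.det ≠ 0 ∧ (∀ g, ∃ c : ℚ_[ℓ], (ρ g)ᵀ * J * ρ g = c • J) ∧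
  ∀ v ∉ S, (ℓ : 𝓞 K) ∉ v.asIdeal → ∀ σ : GK K, IsFrobenius v σ →
    (ρ σ⁻¹).charpoly = (P v).map (algebraMap ℚ ℚ_[ℓ]) ∧
      (ρ σ⁻¹)ᵀ * J * ρ σ⁻¹ = (q v : ℚ_[ℓ]) • J

/-- a place whose Frobenius polynomial is separable with different powers of the roots -/
def NiceP (S : Set (HeightOneSpectrum (𝓞 K))) (P : HeightOneSpectrum (𝓞 K) → ℚ[X])
    (v : HeightOneSpectrum (𝓞 K)) : Prop :=
  v ∉ S ∧ (P v).Monic ∧ (P v).Separable ∧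
    ∀ (j : ℕ) (x y : QQ), 0 < j → aeval x (P v) = 0 → aeval y (P v) = 0 → x ^ j = y ^ j → x = y

/-- a place whose Frobenius polynomial is separable and generic -/
def GenP (S : Set (HeightOneSpectrum (𝓞 K))) (P : HeightOneSpectrum (𝓞 K) → ℚ[X])
    (q : HeightOneSpectrum (𝓞 K) → ℚ) (v : HeightOneSpectrum (𝓞 K)) : Prop :=
  v ∉ S ∧ (P v).Monic ∧ (P v).Separable ∧ q v ≠ 0 ∧
    ∀ x y z w : QQ, aeval x (P v) = 0 → aeval y (P v) = 0 → aeval z (P v) = 0 →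
      aeval w (P v) = 0 → x ≠ y → x * w = z * y →
      (z = x ∧ w = y) ∨ (z * y = (q v : QQ) ∧ w * x = (q v : QQ))

theorem strong_of_irr (hBADIRR : S_BADIRR) {v : HeightOneSpectrum (𝓞 K)} (hv : NiceP S P v) (ℓ : ℕ)
    [hℓ : Fact ℓ.Prime] (hvℓ : (ℓ : 𝓞 K) ∉ v.asIdeal)
    (ρ : GK K →* Matrix (Fin N) (Fin N) ℚ_[ℓ]) (J : Matrix (Fin N) (Fin N) ℚ_[ℓ])
    (hsys : SpSys K N ℓ ρ J S P q) (hirr : Irreducible ((P v).map (algebraMap ℚ ℚ_[ℓ]))) :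
    StronglyIrreducible ℓ ρ := by
  obtain ⟨hvS, hmon, hsep, hpow⟩ := hv
  obtain ⟨hcont, -, -, -, hfrob⟩ := hsys
  obtain ⟨σ, hσ⟩ := Pool.Agent.W401.Frob.exists_frob v
  have hchar := (hfrob v hvS hvℓ σ hσ).1
  refine hBADIRR ℓ N (GK K) ρ hcont σ⁻¹ (by rw [hchar]; exact hirr) ?_
  intro k hk x y hx hy hxy
  obtain ⟨ι⟩ := emb ℓ
  rw [hchar] at hx hy
  obtain ⟨r, hr, rfl⟩ := lift_root ℓ ι hmon.ne_zero hx
  obtain ⟨s, hs, rfl⟩ := lift_root ℓ ι hmon.ne_zero hy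
  rw [← map_pow, ← map_pow] at hxy
  rw [hpow k r s hk hr hs (ι.injective hxy)]

theorem full_of_split (hTAN : S_TAN) (hEXP : S_EXP) (hTANS : S_TANS) (hROOT : S_ROOT)
    {v : HeightOneSpectrum (𝓞 K)} (hv : GenP S P q v) (ℓ : ℕ) [hℓ : Fact ℓ.Prime]
    (hvℓ : (ℓ : 𝓞 K) ∉ v.asIdeal)
    (ρ : GK K →* Matrix (Fin N) (Fin N) ℚ_[ℓ]) (J : Matrix (Fin N) (Fin N) ℚ_[ℓ])
    (hsys : SpSys K N ℓ ρ J S P q) (hspl : ((P v).map (algebraMap ℚ ℚ_[ℓ])).Splits)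
    (hirr : StronglyIrreducible ℓ ρ) : FullSp ℓ ρ J := by
  obtain ⟨hvS, hmon, hsep, hq, hgen⟩ := hv
  obtain ⟨hcont, hJ, hdet, hsim, hfrob⟩ := hsys
  obtain ⟨σ, hσ⟩ := Pool.Agent.W401.Frob.exists_frob v
  obtain ⟨hchar, hmult⟩ := hfrob v hvS hvℓ σ hσ
  obtain ⟨𝔤, h𝔤, hbr, had, -⟩ := hTAN ℓ N (GK K) ρ
  set g : Matrix (Fin N) (Fin N) ℚ_[ℓ] := ρ σ⁻¹ with hg
  have hinv : g⁻¹ = ρ σ := by
    apply Matrix.inv_eq_right_inv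
    rw [hg, ← map_mul, inv_mul_cancel, map_one]
  intro X hX
  refine (h𝔤 X).1 (hROOT ℚ_[ℓ] N J g (q v : ℚ_[ℓ]) 𝔤 hJ hdet (by exact_mod_cast hq) hmult
    (by rw [hchar]; exact hspl) (by rw [hchar]; exact hsep.map) ?_ ?_ hbr ?_ ?_ X hX)
  · -- generic
    intro x' y' z' w' hx' hy' hz' hw' hxy hxw
    obtain ⟨ι⟩ := emb ℓ
    rw [hchar] at hx' hy' hz' hw'
    obtain ⟨x, hx, rfl⟩ := lift_root ℓ ι hmon.ne_zero hx'
    obtain ⟨y, hy, rfl⟩ := lift_root ℓ ι hmon.ne_zero hy'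
    obtain ⟨z, hz, rfl⟩ := lift_root ℓ ι hmon.ne_zero hz'
    obtain ⟨w, hw, rfl⟩ := lift_root ℓ ι hmon.ne_zero hw'
    rw [← map_mul, ← map_mul] at hxw
    have hc : algebraMap ℚ_[ℓ] (AlgebraicClosure ℚ_[ℓ]) (q v : ℚ_[ℓ]) = ι (q v : QQ) := by
      rw [map_ratCast, map_ratCast]
    rcases hgen x y z w hx hy hz hw (fun h => hxy (by rw [h])) (ι.injective hxw) with h | h
    · left
      rw [h.1, h.2]
      exact ⟨rfl, rfl⟩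
    · right
      rw [hc, ← map_mul, ← map_mul, h.1, h.2]
      exact ⟨rfl, rfl⟩
  · intro Z hZ
    exact hTANS ℓ N (GK K) ρ J hdet hsim Z ((h𝔤 Z).1 hZ)
  · intro Z hZ
    rw [hinv]
    have := had σ⁻¹ Z hZ
    rwa [inv_inv] at this
  · intro W hW
    obtain ⟨U, hU, hUW⟩ := hEXP ℓ N (GK K) ρ hcont W W le_rfl
      (fun X hX w hw => hW X ((h𝔤 X).2 hX) w hw)
    refine hirr U W hU fun σ hσ w hw => ?_
    have h1 := W.add_mem (hUW σ hσ w hw) hw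
    rwa [sub_add_cancel] at h1

theorem monic_of_sys
    (ρ : ∀ (ℓ : ℕ) [Fact ℓ.Prime], GK K →* Matrix (Fin N) (Fin N) ℚ_[ℓ])
    (J : ∀ (ℓ : ℕ) [Fact ℓ.Prime], Matrix (Fin N) (Fin N) ℚ_[ℓ])
    (hsys : ∀ (ℓ : ℕ) [Fact ℓ.Prime], SpSys K N ℓ (ρ ℓ) (J ℓ) S P q)
    {v : HeightOneSpectrum (𝓞 K)} (hv : v ∉ S) : (P v).Monic ∧ (P v).natDegree = N := by
  obtain ⟨ℓ, hℓ, hp⟩ := Nat.exists_infinite_primes (Ideal.absNorm v.asIdeal + 1)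
  haveI : Fact ℓ.Prime := ⟨hp⟩
  have hvℓ := not_mem_of_lt v hp (by omega : Ideal.absNorm v.asIdeal < ℓ)
  obtain ⟨σ, hσ⟩ := Pool.Agent.W401.Frob.exists_frob v
  have h1 := ((hsys ℓ).2.2.2.2 v hv hvℓ σ hσ).1
  have h2 := charpoly_monic (ρ ℓ σ⁻¹)
  have h3 := charpoly_natDegree_eq_dim (ρ ℓ σ⁻¹)
  rw [h1] at h2 h3
  refine ⟨monic_of_injective (algebraMap ℚ ℚ_[ℓ]).injective h2, ?_⟩
  rw [natDegree_map, Fintype.card_fin] at h3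
  exact h3

end

/-- automorphisms acting trivially on the roots of `Q` -/
def Triv (Q : ℚ[X]) : Set (GK ℚ) := {g | ∀ x : QQ, aeval x Q = 0 → g x = x}

theorem triv_conj {Q : ℚ[X]} {g : GK ℚ} (hg : g ∈ Triv Q) (h : GK ℚ) : h * g * h⁻¹ ∈ Triv Q := by
  intro x hx
  rw [AlgEquiv.mul_apply, AlgEquiv.mul_apply, hg _ (aeval_aut _ hx), ← AlgEquiv.mul_apply,
    mul_inv_cancel, AlgEquiv.one_apply]

theorem triv_mul {Q : ℚ[X]} {g : GK ℚ} (hg : g ∈ Triv Q) {u : GK ℚ} (hu : u ∈ Triv Q) :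
    g * u ∈ Triv Q := by
  intro x hx
  rw [AlgEquiv.mul_apply, hu x hx, hg x hx]

section
variable {K : Type} [Field K] [NumberField K] {N : ℕ} {S : Set (HeightOneSpectrum (𝓞 K))}
  {P : HeightOneSpectrum (𝓞 K) → ℚ[X]} {q : HeightOneSpectrum (𝓞 K) → ℚ}

/-- infinitely many primes with full Lie algebra -/
theorem inf_open (hTAN : S_TAN) (hEXP : S_EXP) (hTANS : S_TANS) (hROOT : S_ROOT)
    (hBADIRR : S_BADIRR) (hPOS : S_POS) (hIRR : S_IRR) (hSPL : S_SPL) (hN : 0 < N)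
    (ρ : ∀ (ℓ : ℕ) [Fact ℓ.Prime], GK K →* Matrix (Fin N) (Fin N) ℚ_[ℓ])
    (J : ∀ (ℓ : ℕ) [Fact ℓ.Prime], Matrix (Fin N) (Fin N) ℚ_[ℓ])
    (hsys : ∀ (ℓ : ℕ) [Fact ℓ.Prime], SpSys K N ℓ (ρ ℓ) (J ℓ) S P q)
    {v w : HeightOneSpectrum (𝓞 K)} (hv : NiceP S P v) (hw : GenP S P q w)
    (hne : (Cyc (P v) ∩ Triv (P w)).Nonempty) (b : ℕ) :
    ∃ ℓ : ℕ, b < ℓ ∧ ∃ _ : Fact ℓ.Prime, FullSp ℓ (ρ ℓ) (J ℓ) := by
  obtain ⟨hmon, hdeg⟩ := monic_of_sys ρ J hsys hv.1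
  obtain ⟨b₁, hb₁⟩ := hIRR (P v) hmon hv.2.2.1 (by rw [hdeg]; exact hN)
  obtain ⟨b₂, hb₂⟩ := hSPL (P w) hw.2.1 hw.2.2.1
  set L : IntermediateField ℚ QQ := Lf (P v * P w) with hL
  have hne0 : P v * P w ≠ 0 := mul_ne_zero hmon.ne_zero hw.2.1.ne_zero
  have hz : ZI.DensityZero (∅ : Set ℕ) := by
    unfold ZI.DensityZero
    simp
  have hclosed : ∀ g ∈ Cyc (P v) ∩ Triv (P w), ∀ u ∈ fixSub L, g * u ∈ Cyc (P v) ∩ Triv (P w) := by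
    intro g hg u hu
    constructor
    · refine cyc_mul' hg.1 fun x hx => ?_
      exact mem_fixSub.1 hu x (mem_Lf hne0 (by rw [map_mul, hx, zero_mul]))
    · refine triv_mul hg.2 fun x hx => ?_
      exact mem_fixSub.1 hu x (mem_Lf hne0 (by rw [map_mul, hx, mul_zero]))
  obtain ⟨ℓ, hℓ, hp, -, σ, hσ, hσℓ⟩ := hPOS (fixSub L) (fixSub_normal _ (Lf_normal _))
    (fixSub_open _ (Lf_finite _)) (Cyc (P v) ∩ Triv (P w)) hne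
    (fun g hg h => ⟨cyc_conj hg.1 h, triv_conj hg.2 h⟩) hclosed ∅ hz
    (max (max b (max b₁ b₂)) (max (Ideal.absNorm v.asIdeal) (Ideal.absNorm w.asIdeal)))
  simp only [max_lt_iff] at hℓ
  haveI : Fact ℓ.Prime := ⟨hp⟩
  refine ⟨ℓ, hℓ.1.1, ⟨hp⟩, ?_⟩
  have hirr := hb₁ ℓ hℓ.1.2.1 ⟨hp⟩ σ hσℓ hσ.1
  have hspl := hb₂ ℓ hℓ.1.2.2 ⟨hp⟩ σ hσℓ hσ.2
  exact full_of_split hTAN hEXP hTANS hROOT hw ℓ (not_mem_of_lt w hp hℓ.2.2) (ρ ℓ) (J ℓ) (hsys ℓ)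
    hspl (strong_of_irr hBADIRR hv ℓ (not_mem_of_lt v hp hℓ.2.1) (ρ ℓ) (J ℓ) (hsys ℓ) hirr)

end

end Pool.Agent.Y142.ZS
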