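import Pool.Agent.Y142.ZS.Top

/-!
# Project ZS: complex conditions, parity
-/

set_option autoImplicit false
set_option linter.style.haveILetI false

open Matrix Polynomial Filter Topology NumberField IsDedekindDomain
open Pool.Agent.Y142.ZO Pool.Agent.Y142.ZI

namespace Pool.Agent.Y142.ZS

section
variable {K : Type} [Field K] [NumberField K] {N : ℕ} {S : Set (HeightOneSpectrum (𝓞 K))}
  {P : HeightOneSpectrum (𝓞 K) → ℚ[X]} {q : HeightOneSpectrum (𝓞 K) → ℚ}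

theorem push_C (j : QQ →+* ℂ) {Q : ℚ[X]} {x : QQ} (hx : aeval x Q = 0) : aeval (j x) Q = 0 := by
  have h3 := congrArg j hx
  rw [aeval_def, hom_eval₂, map_zero] at h3
  rw [aeval_def, ← h3]
  congr 1
  exact Subsingleton.elim _ _

theorem nice_of_complex
    (ρ : ∀ (ℓ : ℕ) [Fact ℓ.Prime], GK K →* Matrix (Fin N) (Fin N) ℚ_[ℓ])
    (J : ∀ (ℓ : ℕ) [Fact ℓ.Prime], Matrix (Fin N) (Fin N) ℚ_[ℓ])
    (hsys : ∀ (ℓ : ℕ) [Fact ℓ.Prime], SpSys K N ℓ (ρ ℓ) (J ℓ) S P q)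
    {v : HeightOneSpectrum (𝓞 K)} (hv : v ∉ S) (hsep : (P v).Separable)
    (h2 : ∀ n : ℕ, 0 < n → ∀ x y : ℂ, aeval x (P v) = 0 → aeval y (P v) = 0 → x ^ n = y ^ n → x = y) :
    NiceP S P v := by
  obtain ⟨jc⟩ := nonempty_LC
  refine ⟨hv, (monic_of_sys ρ J hsys hv).1, hsep, ?_⟩
  intro j x y hj hx hy hxy
  apply jc.injective
  refine h2 j hj _ _ (push_C jc hx) (push_C jc hy) ?_
  rw [← map_pow, hxy, map_pow]

theorem q_ne_zero (hN : 0 < N)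
    (ρ : ∀ (ℓ : ℕ) [Fact ℓ.Prime], GK K →* Matrix (Fin N) (Fin N) ℚ_[ℓ])
    (J : ∀ (ℓ : ℕ) [Fact ℓ.Prime], Matrix (Fin N) (Fin N) ℚ_[ℓ])
    (hsys : ∀ (ℓ : ℕ) [Fact ℓ.Prime], SpSys K N ℓ (ρ ℓ) (J ℓ) S P q)
    {v : HeightOneSpectrum (𝓞 K)} (hv : v ∉ S) : q v ≠ 0 := by
  obtain ⟨ℓ, hℓ, hp⟩ := Nat.exists_infinite_primes (Ideal.absNorm v.asIdeal + 1)
  haveI : Fact ℓ.Prime := ⟨hp⟩
  have hvℓ := not_mem_of_lt v hp (by omega : Ideal.absNorm v.asIdeal < ℓ)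
  obtain ⟨σ, hσ⟩ := Pool.Agent.W401.Frob.exists_frob v
  have h1 := ((hsys ℓ).2.2.2.2 v hv hvℓ σ hσ).2
  intro h0
  rw [h0, Rat.cast_zero, zero_smul] at h1
  have h2 := congrArg det h1
  haveI : Nonempty (Fin N) := ⟨⟨0, hN⟩⟩
  rw [det_mul, det_mul, det_transpose, det_zero] at h2
  have h3 : (ρ ℓ σ⁻¹).det ≠ 0 := by
    have h4 : ρ ℓ σ⁻¹ * ρ ℓ σ = 1 := by rw [← map_mul, inv_mul_cancel, map_one]
    have h5 := congrArg det h4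
    rw [det_mul, det_one] at h5
    exact left_ne_zero_of_mul (by rw [h5]; exact one_ne_zero)
  exact mul_ne_zero (mul_ne_zero h3 (hsys ℓ).2.2.1) h3 h2

theorem gen_of_complex (hN : 0 < N)
    (ρ : ∀ (ℓ : ℕ) [Fact ℓ.Prime], GK K →* Matrix (Fin N) (Fin N) ℚ_[ℓ])
    (J : ∀ (ℓ : ℕ) [Fact ℓ.Prime], Matrix (Fin N) (Fin N) ℚ_[ℓ])
    (hsys : ∀ (ℓ : ℕ) [Fact ℓ.Prime], SpSys K N ℓ (ρ ℓ) (J ℓ) S P q)
    {v : HeightOneSpectrum (𝓞 K)} (hv : v ∉ S) (hsep : (P v).Separable)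
    (h2 : ∀ x y z w : ℂ, aeval x (P v) = 0 → aeval y (P v) = 0 → aeval z (P v) = 0 →
      aeval w (P v) = 0 → x ≠ y → x * w = z * y →
      (z = x ∧ w = y) ∨ (z * y = (q v : ℂ) ∧ w * x = (q v : ℂ))) :
    GenP S P q v := by
  obtain ⟨jc⟩ := nonempty_LC
  refine ⟨hv, (monic_of_sys ρ J hsys hv).1, hsep, q_ne_zero hN ρ J hsys hv, ?_⟩
  intro x y z w hx hy hz hw hxy hxw
  have hc : (q v : ℂ) = jc (q v : QQ) := by rw [map_ratCast]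
  rcases h2 (jc x) (jc y) (jc z) (jc w) (push_C jc hx) (push_C jc hy) (push_C jc hz) (push_C jc hw)
    (fun h => hxy (jc.injective h)) (by rw [← map_mul, ← map_mul, hxw]) with h | h
  · exact Or.inl ⟨jc.injective h.1, jc.injective h.2⟩
  · right
    rw [hc, ← map_mul, ← map_mul] at h
    exact ⟨jc.injective h.1, jc.injective h.2⟩

theorem even_of_sys
    (ρ : ∀ (ℓ : ℕ) [Fact ℓ.Prime], GK K →* Matrix (Fin N) (Fin N) ℚ_[ℓ])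
    (J : ∀ (ℓ : ℕ) [Fact ℓ.Prime], Matrix (Fin N) (Fin N) ℚ_[ℓ])
    (hsys : ∀ (ℓ : ℕ) [Fact ℓ.Prime], SpSys K N ℓ (ρ ℓ) (J ℓ) S P q) : Even N := by
  haveI : Fact (Nat.Prime 2) := ⟨Nat.prime_two⟩
  obtain ⟨-, h1, h2, -⟩ := hsys 2
  have h3 := congrArg det h1
  rw [det_transpose, det_neg, Fintype.card_fin] at h3
  by_contra hodd
  rw [Nat.not_even_iff_odd] at hodd
  rw [hodd.neg_one_pow, neg_one_mul] at h3
  exact h2 (self_eq_neg.1 h3)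

end

end Pool.Agent.Y142.ZS
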