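import Pool.Agent.Y142.ZS.Types
import Pool.Agent.Y142.ZI.Surj

/-!
# Project ZS: large Galois groups from local types
-/

set_option autoImplicit false
set_option linter.style.haveILetI false

open Matrix Polynomial Filter Topology NumberField IsDedekindDomain
open Pool.Agent.Y142.ZO Pool.Agent.Y142.ZI

namespace Pool.Agent.Y142.ZS

/-- the involution `x ↦ c / x` on the roots -/
noncomputable def divR (Q : ℚ[X]) (c : ℚ) (hc : c ≠ 0)
    (h : ∀ x : QQ, aeval x Q = 0 → x ≠ 0 ∧ aeval ((c : QQ) / x) Q = 0) :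
    Equiv.Perm (Rt Q) where
  toFun x := ⟨(c : QQ) / x.1, (h x.1 x.2).2⟩
  invFun x := ⟨(c : QQ) / x.1, (h x.1 x.2).2⟩
  left_inv x := Subtype.ext (div_div_cancel₀ (by exact_mod_cast hc))
  right_inv x := Subtype.ext (div_div_cancel₀ (by exact_mod_cast hc))

theorem divR_apply (Q : ℚ[X]) (c : ℚ) (hc : c ≠ 0)
    (h : ∀ x : QQ, aeval x Q = 0 → x ≠ 0 ∧ aeval ((c : QQ) / x) Q = 0) (x : Rt Q) :
    ((divR Q c hc h x : Rt Q) : QQ) = (c : QQ) / x.1 := rfl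

theorem surjS (hGEN : S_GEN) (hRES : S_RES) (hUNR : S_UNR) {m : ℕ} {Q : ℚ[X]} {c : ℚ} (hc : c ≠ 0)
    (hmon : Q.Monic) (hsep : Q.Separable) (hdeg : Q.natDegree = 2 * m + 2)
    (hsq : ∀ x : QQ, aeval x Q = 0 → x * x ≠ (c : QQ))
    (hinv : ∀ x : QQ, aeval x Q = 0 → x ≠ 0 ∧ aeval ((c : QQ) / x) Q = 0)
    (M : IntermediateField ℚ QQ)
    (f : ℤ[X]) (hf : f.Monic) (hMf : M ≤ IntermediateField.adjoin ℚ {x : QQ | aeval x f = 0})
    (hζ : ∀ ζ : QQ, ζ ^ (2 * (m + 1)) = 1 → ζ ∈ M) (p₀ p₁ p₂ p₃ : ℕ) [Fact p₀.Prime] [Fact p₁.Prime]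
    [Fact p₂.Prime] [Fact p₃.Prime] (hf₀ : (f.map (Int.castRingHom (ZMod p₀))).Separable)
    (hf₁ : (f.map (Int.castRingHom (ZMod p₁))).Separable)
    (hf₂ : (f.map (Int.castRingHom (ZMod p₂))).Separable)
    (hf₃ : (f.map (Int.castRingHom (ZMod p₃))).Separable)
    (hC : SCc p₀ (m + 1) (Q.map (algebraMap ℚ ℚ_[p₀])) (c : ℚ_[p₀]))
    (hS : SCs p₁ (Q.map (algebraMap ℚ ℚ_[p₁])) (c : ℚ_[p₁]))
    (hT : 2 ≤ m → SCt p₂ (Q.map (algebraMap ℚ ℚ_[p₂])) (c : ℚ_[p₂]))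
    (hU : 0 < m → SCu p₃ (Q.map (algebraMap ℚ ℚ_[p₃])) (c : ℚ_[p₃])) :
    (∀ g : GK ℚ, ∃ h : GK ℚ, (∀ x ∈ M, h x = x) ∧ g * h ∈ Cyc Q) ∧
    ∀ g : GK ℚ, ∃ h : GK ℚ, (∀ x ∈ M, h x = x) ∧ g * h ∈ Triv Q := by
  classical
  obtain ⟨hfinR, hcardR⟩ := card_Rt hmon hsep
  letI : Fintype (Rt Q) := Fintype.ofFinite _
  rw [Nat.card_eq_fintype_card, hdeg] at hcardR
  set ι := divR Q c hc hinv with hι
  set H : Subgroup (Equiv.Perm (Rt Q)) := (fixSub M).map (act Q) with hH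
  have hmemH : ∀ σ : GK ℚ, (∀ x ∈ M, σ x = x) → act Q σ ∈ H := fun σ hσ =>
    ⟨σ, mem_fixSub.2 hσ, rfl⟩
  have hcomm : ∀ (σ : GK ℚ) (x : Rt Q), act Q σ (ι x) = ι (act Q σ x) := by
    intro σ x
    apply Subtype.ext
    rw [act_apply, hι, divR_apply, divR_apply, act_apply, map_div₀, map_ratCast]
  have hιne : ∀ x, ι x ≠ x := by
    intro x hx
    have hx' : (c : QQ) / x.1 = x.1 := congrArg Subtype.val hx
    have hx0 := (hinv x.1 x.2).1
    apply hsq x.1 x.2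
    rw [div_eq_iff hx0] at hx'
    exact hx'.symm
  have hιι : ∀ x, ι (ι x) = x := fun x => Subtype.ext (div_div_cancel₀ (by exact_mod_cast hc))
  have hQ0 : Q ≠ 0 := hmon.ne_zero
  -- images of `c / x`
  have hjc : ∀ (p : ℕ) [Fact p.Prime] (j : QQ →+* AlgebraicClosure ℚ_[p]) (x : QQ),
      algebraMap ℚ_[p] (AlgebraicClosure ℚ_[p]) (c : ℚ_[p]) / j x = j ((c : QQ) / x) := by
    intro p _ j x
    rw [map_div₀, map_ratCast, map_ratCast]
  -- the full cycle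
  have hfull : ∃ σ : GK ℚ, (∀ x ∈ M, σ x = x) ∧ σ ∈ Cyc Q := by
    obtain ⟨j⟩ := emb p₀
    obtain ⟨-, -, -, h⟩ := hC
    obtain ⟨τ, hτ⟩ := h _ (hUNR p₀ f hf hf₀) (by
      intro ζ hζ1
      have h3 : aeval ζ ((X ^ (2 * (m + 1)) - 1 : ℚ[X]).map (algebraMap ℚ ℚ_[p₀])) = 0 := by
        simp [hζ1]
      have h4 : (X ^ (2 * (m + 1)) - 1 : ℚ[X]) ≠ 0 := by
        have h5 := X_pow_sub_C_ne_zero (n := 2 * (m + 1)) (by omega) (1 : ℚ)
        rwa [C_1] at h5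
      obtain ⟨r, hr, rfl⟩ := lift_root p₀ j h4 h3
      refine embed_adjoin p₀ j f (hMf (hζ r ?_))
      simpa [sub_eq_zero] using hr)
    obtain ⟨σ, hσM, hσ⟩ := hRES p₀ j f M hMf τ
    refine ⟨σ, hσM, fun x y hx hy => ?_⟩
    obtain ⟨i, hi⟩ := hτ (j x) (j y) (push_root p₀ j hx) (push_root p₀ j hy)
    refine ⟨i, ?_⟩
    rw [pow_restrict p₀ j _ τ σ hσ] at hi
    exact j.injective hi
  obtain ⟨σc, hσcM, hσc⟩ := hfull
  have hact_pow : ∀ (σ : GK ℚ) (k : ℕ) (x : Rt Q), (((act Q σ) ^ k) x : QQ) = (σ ^ k) x.1 := by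
    intro σ k x
    rw [← map_pow, act_apply]
  have g1 : ∃ h ∈ H, ∀ x y : Rt Q, ∃ k : ℕ, (h ^ k) x = y := by
    refine ⟨act Q σc, hmemH σc hσcM, fun x y => ?_⟩
    obtain ⟨k, hk⟩ := hσc x.1 y.1 x.2 y.2
    exact ⟨k, Subtype.ext (by rw [hact_pow, hk])⟩
  have g2 : ∃ h ∈ H, ∃ x, h x = ι x ∧ ∀ y, y ≠ x → y ≠ ι x → h y = y := by
    obtain ⟨j⟩ := emb p₁
    obtain ⟨τ, x, hx, hxx, hy⟩ := hS _ (hUNR p₁ f hf hf₁)
    obtain ⟨σ, hσM, hσ⟩ := hRES p₁ j f M hMf τ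
    obtain ⟨r, hr, rfl⟩ := lift_root p₁ j hQ0 hx
    rw [hjc] at hxx hy
    refine ⟨act Q σ, hmemH σ hσM, ⟨r, hr⟩, ?_, ?_⟩
    · apply Subtype.ext
      rw [act_apply, hι, divR_apply]
      apply j.injective
      rw [← hσ, hxx]
    · intro y hy1 hy2
      apply Subtype.ext
      rw [act_apply]
      apply j.injective
      rw [← hσ]
      refine hy _ (push_root p₁ j y.2) ?_ ?_
      · intro h
        exact hy1 (Subtype.ext (j.injective h))
      · intro h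
        exact hy2 (Subtype.ext (j.injective h))
  have g3 : 6 ≤ Fintype.card (Rt Q) → ∃ h ∈ H, ∃ x y, y ≠ x ∧ y ≠ ι x ∧ (h x = y ∨ h x = ι y) ∧
      (h y = x ∨ h y = ι x) ∧
      ∀ z, z ≠ x → z ≠ ι x → z ≠ y → z ≠ ι y → (h z = z ∨ h z = ι z) := by
    intro h6
    obtain ⟨j⟩ := emb p₂
    obtain ⟨τ, x, y, hx, hy, hxy, hxy', hτx, hτy, hz⟩ := hT (by omega) _ (hUNR p₂ f hf hf₂)
    obtain ⟨σ, hσM, hσ⟩ := hRES p₂ j f M hMf τ
    obtain ⟨r, hr, rfl⟩ := lift_root p₂ j hQ0 hx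
    obtain ⟨s, hs, rfl⟩ := lift_root p₂ j hQ0 hy
    rw [hjc] at hxy'
    refine ⟨act Q σ, hmemH σ hσM, ⟨r, hr⟩, ⟨s, hs⟩, ?_, ?_, Or.inl ?_, Or.inl ?_, ?_⟩
    · intro h
      exact hxy (congrArg (fun x : Rt Q => j x.1) h)
    · intro h
      apply hxy'
      exact congrArg (fun x : Rt Q => j x.1) h
    · apply Subtype.ext
      rw [act_apply]
      apply j.injective
      rw [← hσ, hτx]
    · apply Subtype.ext
      rw [act_apply]
      apply j.injective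
      rw [← hσ, hτy]
    · intro z hz1 hz2 hz3 hz4
      have h5 := hz (j z.1) (push_root p₂ j z.2) (fun h => hz1 (Subtype.ext (j.injective h)))
        (fun h => hz2 (Subtype.ext (j.injective (by rw [h, hjc]; rfl))))
        (fun h => hz3 (Subtype.ext (j.injective h)))
        (fun h => hz4 (Subtype.ext (j.injective (by rw [h, hjc]; rfl))))
      rcases h5 with h5 | h5
      · left
        apply Subtype.ext
        rw [act_apply]
        apply j.injective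
        rw [← hσ, h5]
      · right
        apply Subtype.ext
        rw [act_apply, hι, divR_apply]
        apply j.injective
        rw [← hσ, h5, hjc]
  have g4 : ∃ z₀, ∀ x y, x ≠ z₀ → x ≠ ι z₀ → y ≠ z₀ → y ≠ ι z₀ → ∃ h ∈ H, (h z₀ = z₀ ∨ h z₀ = ι z₀) ∧
      (h x = y ∨ h x = ι y) := by
    rcases Nat.eq_zero_or_pos m with hm | hm
    · -- two roots only
      have hc2 : Fintype.card (Rt Q) = 2 := by rw [hcardR, hm]
      have hne : Nonempty (Rt Q) := by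
        rw [← Fintype.card_pos_iff, hc2]
        exact two_pos
      obtain ⟨z₀⟩ := hne
      refine ⟨z₀, fun x y hx hx' => ?_⟩
      exfalso
      have h3 : ({x, z₀, ι z₀} : Finset (Rt Q)).card ≤ 2 := by
        rw [← hc2]
        exact Finset.card_le_univ _
      have h4 : ({x, z₀, ι z₀} : Finset (Rt Q)).card = 3 := by
        rw [Finset.card_eq_three]
        exact ⟨x, z₀, ι z₀, hx, hx', (hιne z₀).symm, rfl⟩
      omega
    · obtain ⟨j⟩ := emb p₃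
      obtain ⟨z₀, hz₀, hz⟩ := hU hm _ (hUNR p₃ f hf hf₃)
      obtain ⟨r, hr, rfl⟩ := lift_root p₃ j hQ0 hz₀
      refine ⟨⟨r, hr⟩, fun x y hx1 hx2 hy1 hy2 => ?_⟩
      obtain ⟨τ, hτz, hτx⟩ := hz (j x.1) (j y.1) (push_root p₃ j x.2) (push_root p₃ j y.2)
        (fun h => hx1 (Subtype.ext (j.injective h)))
        (fun h => hx2 (Subtype.ext (j.injective (by rw [h, hjc]; rfl))))
        (fun h => hy1 (Subtype.ext (j.injective h)))
        (fun h => hy2 (Subtype.ext (j.injective (by rw [h, hjc]; rfl))))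
      obtain ⟨σ, hσM, hσ⟩ := hRES p₃ j f M hMf τ
      rw [hjc] at hτz hτx
      refine ⟨act Q σ, hmemH σ hσM, ?_, ?_⟩
      · rcases hτz with h | h
        · left
          apply Subtype.ext
          rw [act_apply]
          apply j.injective
          rw [← hσ, h]
        · right
          apply Subtype.ext
          rw [act_apply, hι, divR_apply]
          apply j.injective
          rw [← hσ, h]
      · rcases hτx with h | h
        · left
          apply Subtype.ext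
          rw [act_apply]
          apply j.injective
          rw [← hσ, h]
        · right
          apply Subtype.ext
          rw [act_apply, hι, divR_apply]
          apply j.injective
          rw [← hσ, h]
  have hHcomm : ∀ h ∈ H, ∀ x, h (ι x) = ι (h x) := by
    rintro h ⟨σ, -, rfl⟩ x
    exact hcomm σ x
  have hgen := hGEN (Rt Q) ι H hιne hιι hHcomm g1 g2 g3 g4
  have hgen' : ∀ t : GK ℚ, ∃ h : GK ℚ, (∀ x ∈ M, h x = x) ∧ ∀ x : QQ, aeval x Q = 0 → h x = t x := by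
    intro t
    obtain ⟨h, hh, hhw⟩ := hgen (act Q t) (fun x => hcomm _ x)
    refine ⟨h, mem_fixSub.1 hh, fun x hx => ?_⟩
    exact congrArg (fun w : Equiv.Perm (Rt Q) => (w ⟨x, hx⟩ : QQ)) hhw
  refine ⟨?_, ?_⟩
  · intro g
    obtain ⟨h, hhM, hh⟩ := hgen' (g⁻¹ * σc)
    refine ⟨h, hhM, ?_⟩
    have hagree : ∀ x : QQ, aeval x Q = 0 → (σc⁻¹ * (g * h)) x = x := by
      intro x hx
      rw [AlgEquiv.mul_apply, AlgEquiv.mul_apply, hh x hx, AlgEquiv.mul_apply, ← AlgEquiv.mul_apply g,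
        mul_inv_cancel, AlgEquiv.one_apply, ← AlgEquiv.mul_apply, inv_mul_cancel, AlgEquiv.one_apply]
    have h5 := cyc_mul' hσc hagree
    rwa [mul_inv_cancel_left] at h5
  · intro g
    obtain ⟨h, hhM, hh⟩ := hgen' g⁻¹
    refine ⟨h, hhM, fun x hx => ?_⟩
    rw [AlgEquiv.mul_apply, hh x hx, ← AlgEquiv.mul_apply, mul_inv_cancel, AlgEquiv.one_apply]

end Pool.Agent.Y142.ZS
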