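import Pool.Agent.Y142.ZS.Surj

/-!
# Project ZS: density zero
-/

set_option autoImplicit false
set_option linter.style.haveILetI false

open Matrix Polynomial Filter Topology NumberField IsDedekindDomain
open Pool.Agent.Y142.ZO Pool.Agent.Y142.ZI

namespace Pool.Agent.Y142.ZS

section
variable {K : Type} [Field K] [NumberField K] {N : ℕ} {S : Set (HeightOneSpectrum (𝓞 K))}
  {P : HeightOneSpectrum (𝓞 K) → ℚ[X]} {q : HeightOneSpectrum (𝓞 K) → ℚ}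

/-- separable with distinct powers, from `ℚ_p` -/
theorem nice_of_p {v : HeightOneSpectrum (𝓞 K)} (hvS : v ∉ S) (hmon : (P v).Monic)
    (p : ℕ) [Fact p.Prime] (hsep : ((P v).map (algebraMap ℚ ℚ_[p])).Separable)
    (hpow : ∀ (j : ℕ) (x y : AlgebraicClosure ℚ_[p]), 0 < j →
      aeval x ((P v).map (algebraMap ℚ ℚ_[p])) = 0 → aeval y ((P v).map (algebraMap ℚ ℚ_[p])) = 0 →
      x ^ j = y ^ j → x = y) : NiceP S P v := by
  refine ⟨hvS, hmon, (Polynomial.separable_map _).1 hsep, ?_⟩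
  intro j x y hj hx hy hxy
  obtain ⟨ι⟩ := emb p
  apply ι.injective
  refine hpow j _ _ hj (push_root p ι hx) (push_root p ι hy) ?_
  rw [← map_pow, hxy, map_pow]

/-- separable and generic, from `ℚ_p` -/
theorem gen_of_p {v : HeightOneSpectrum (𝓞 K)} (hvS : v ∉ S) (hmon : (P v).Monic) (hq : q v ≠ 0)
    (p : ℕ) [Fact p.Prime] (hsep : ((P v).map (algebraMap ℚ ℚ_[p])).Separable)
    (hgen : Generic ((P v).map (algebraMap ℚ ℚ_[p])) (q v : ℚ_[p])) : GenP S P q v := by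
  refine ⟨hvS, hmon, (Polynomial.separable_map _).1 hsep, hq, ?_⟩
  intro x y z w hx hy hz hw hxy hxw
  obtain ⟨ι⟩ := emb p
  have hc : algebraMap ℚ_[p] (AlgebraicClosure ℚ_[p]) (q v : ℚ_[p]) = ι (q v : QQ) := by
    rw [map_ratCast, map_ratCast]
  rcases hgen (ι x) (ι y) (ι z) (ι w) (push_root p ι hx) (push_root p ι hy) (push_root p ι hz)
    (push_root p ι hw) (fun h => hxy (ι.injective h)) (by rw [← map_mul, ← map_mul, hxw]) with h | h
  · exact Or.inl ⟨ι.injective h.1, ι.injective h.2⟩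
  · right
    rw [hc, ← map_mul, ← map_mul] at h
    exact ⟨ι.injective h.1, ι.injective h.2⟩

/-- the place with a full cycle and the split generic place, from one prime -/
theorem start {m : ℕ} (hMULTI : S_MULTI) (hFROB : S_FROB) (hCHARS : S_CHARS) (hSFORM : S_SFORM)
    (hTYPCU : S_TYPCU) (hTYPG : S_TYPG) (hS : S.Finite)
    (ρ : ∀ (ℓ : ℕ) [Fact ℓ.Prime], GK K →* Matrix (Fin (2 * m + 2)) (Fin (2 * m + 2)) ℚ_[ℓ])
    (J : ∀ (ℓ : ℕ) [Fact ℓ.Prime], Matrix (Fin (2 * m + 2)) (Fin (2 * m + 2)) ℚ_[ℓ])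
    (hsys : ∀ (ℓ : ℕ) [Fact ℓ.Prime], SpSys K (2 * m + 2) ℓ (ρ ℓ) (J ℓ) S P q)
    (ℓ : ℕ) [hℓ : Fact ℓ.Prime] (h2 : ℓ ≠ 2) (hfull : FullSp ℓ (ρ ℓ) (J ℓ)) :
    ∃ v w : HeightOneSpectrum (𝓞 K), NiceP S P v ∧ GenP S P q w ∧
      (Cyc (P v) ∩ Triv (P w)).Nonempty := by
  have hlt1 := slt_cu (m := m) hSFORM hTYPCU h2 (hsys ℓ).2.1 (hsys ℓ).2.2.1
  have hlt2 := slt_g (m := m) hSFORM hTYPG (hsys ℓ).2.1 (hsys ℓ).2.2.1
  obtain ⟨v, hvS, -, -, hv⟩ := realiseS hMULTI hFROB hCHARS (Nat.succ_pos _) hS ρ J hsys Unit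
    (fun _ => ℓ) (fun _ _ _ => rfl) (fun _ => hfull) (fun _ => SCcu ℓ) (fun _ => hlt1)
  obtain ⟨w, hwS, hqw, -, hw⟩ := realiseS hMULTI hFROB hCHARS (Nat.succ_pos _) hS ρ J hsys Unit
    (fun _ => ℓ) (fun _ _ _ => rfl) (fun _ => hfull) (fun _ => SCg ℓ) (fun _ => hlt2)
  obtain ⟨hvm, hvd⟩ := monic_of_sys ρ J hsys hvS
  obtain ⟨hwm, hwd⟩ := monic_of_sys ρ J hsys hwS
  obtain ⟨hvsep, hvpow, τ, hτ⟩ := (hv ()).1
  obtain ⟨hwspl, hwsep, hwgen⟩ := (hw ()).1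
  refine ⟨v, w, nice_of_p hvS hvm ℓ hvsep hvpow, gen_of_p hwS hwm hqw ℓ hwsep hwgen, ?_⟩
  obtain ⟨j⟩ := emb ℓ
  obtain ⟨σ, hσ⟩ := restrict0 ℓ j τ
  refine ⟨σ, ?_, ?_⟩
  · intro x y hx hy
    obtain ⟨i, hi⟩ := hτ (j x) (j y) (push_root ℓ j hx) (push_root ℓ j hy)
    refine ⟨i, ?_⟩
    have hpow : ∀ (k : ℕ) (z : QQ), (τ ^ k) (j z) = j ((σ ^ k) z) := by
      intro k
      induction k with
      | zero => intro z; rfl
      | succ k ih =>
        intro z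
        rw [pow_succ, pow_succ, AlgEquiv.mul_apply, AlgEquiv.mul_apply, hσ, ih]
    rw [hpow] at hi
    exact j.injective hi
  · intro x hx
    -- `j x` is in `ℚ_ℓ`
    have h1 : aeval (j x) ((P w).map (algebraMap ℚ ℚ_[ℓ])) = 0 := push_root ℓ j hx
    have h2 : ∃ a : ℚ_[ℓ], algebraMap ℚ_[ℓ] (AlgebraicClosure ℚ_[ℓ]) a = j x := by
      have h3 : j x ∈ (((P w).map (algebraMap ℚ ℚ_[ℓ])).map
          (algebraMap ℚ_[ℓ] (AlgebraicClosure ℚ_[ℓ]))).roots := by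
        rw [mem_roots ((hwm.map _).map _).ne_zero, IsRoot.def, eval_map_algebraMap]
        exact h1
      rw [hwspl.roots_map] at h3
      obtain ⟨a, -, ha⟩ := Multiset.mem_map.1 h3
      exact ⟨a, ha⟩
    obtain ⟨a, ha⟩ := h2
    apply j.injective
    rw [← hσ, ← ha, τ.commutes]

/-- the main theorem with the full Lie algebra -/
theorem densityS {m : ℕ} (hTAN : S_TAN) (hEXP : S_EXP) (hTANS : S_TANS) (hROOT : S_ROOT)
    (hBADIRR : S_BADIRR) (hPOS : S_POS) (hIRR : S_IRR) (hSPL : S_SPL)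
    (hMULTI : S_MULTI) (hFROB : S_FROB) (hCHARS : S_CHARS) (hSFORM : S_SFORM) (hTWIST : S_TWIST)
    (hTYPC : S_TYPC) (hTYPS : S_TYPS) (hTYPT : S_TYPT) (hTYPU : S_TYPU) (hTYPG : S_TYPG)
    (hGEN : S_GEN) (hRES : S_RES) (hUNR : S_UNR) (hINT : S_INT) (hDENS2 : S_DENS2) (hS : S.Finite)
    (ρ : ∀ (ℓ : ℕ) [Fact ℓ.Prime], GK K →* Matrix (Fin (2 * m + 2)) (Fin (2 * m + 2)) ℚ_[ℓ])
    (J : ∀ (ℓ : ℕ) [Fact ℓ.Prime], Matrix (Fin (2 * m + 2)) (Fin (2 * m + 2)) ℚ_[ℓ])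
    (hsys : ∀ (ℓ : ℕ) [Fact ℓ.Prime], SpSys K (2 * m + 2) ℓ (ρ ℓ) (J ℓ) S P q)
    {v₁ w₁ : HeightOneSpectrum (𝓞 K)} (hv₁ : NiceP S P v₁) (hw₁ : GenP S P q w₁)
    (hne : (Cyc (P v₁) ∩ Triv (P w₁)).Nonempty) :
    ZI.DensityZero {ℓ | ∃ _ : Fact ℓ.Prime, ¬ FullSp ℓ (ρ ℓ) (J ℓ)} := by
  classical
  have hinf := inf_open hTAN hEXP hTANS hROOT hBADIRR hPOS hIRR hSPL (Nat.succ_pos _) ρ J hsys hv₁ hw₁
    hne
  -- the key construction
  have key : ∀ M : IntermediateField ℚ QQ, FiniteDimensional ℚ M →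
      ∃ v : HeightOneSpectrum (𝓞 K), NiceP S P v ∧ GenP S P q v ∧
        (P v).natDegree = 2 * m + 2 ∧
        (∀ g : GK ℚ, ∃ h : GK ℚ, (∀ x ∈ M, h x = x) ∧ g * h ∈ Cyc (P v)) ∧
        (∀ g : GK ℚ, ∃ h : GK ℚ, (∀ x ∈ M, h x = x) ∧ g * h ∈ Triv (P v)) := by
    intro M hM
    set Z : IntermediateField ℚ QQ := Lf (X ^ (2 * (m + 1)) - 1) with hZ
    haveI : FiniteDimensional ℚ Z := Lf_finite _
    haveI := hM
    set M' : IntermediateField ℚ QQ := M ⊔ Z with hM'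
    haveI : FiniteDimensional ℚ M' := IntermediateField.finiteDimensional_sup M Z
    obtain ⟨f, hf, hMf, b, hb⟩ := hINT M' inferInstance
    -- five primes
    set 𝒢 : Set ℕ := {ℓ | max b (2 * m + 3) < ℓ ∧ ∃ _ : Fact ℓ.Prime, FullSp ℓ (ρ ℓ) (J ℓ)} with h𝒢
    have h𝒢inf : 𝒢.Infinite := by
      apply Set.infinite_of_forall_exists_gt
      intro a
      obtain ⟨ℓ, hℓ, hp, hfull⟩ := hinf (max a (max b (2 * m + 3)))
      rw [max_lt_iff] at hℓ
      exact ⟨ℓ, ⟨hℓ.2, hp, hfull⟩, hℓ.1⟩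
    let e : ℕ ↪ 𝒢 := h𝒢inf.natEmbedding
    let p : Fin 5 → ℕ := fun i => (e i.1).1
    have hpinj : Function.Injective p := by
      intro i j hij
      exact Fin.ext (e.injective (Subtype.ext hij))
    have hpmem : ∀ i, p i ∈ 𝒢 := fun i => (e i.1).2
    haveI hpp : ∀ i, Fact (p i).Prime := fun i => (hpmem i).2.1
    have hpfull : ∀ i, FullSp (p i) (ρ (p i)) (J (p i)) := by
      intro i
      obtain ⟨-, h, h'⟩ := hpmem i
      exact h'
    have hplt : ∀ i, b < p i ∧ 2 * m + 3 < p i := fun i => max_lt_iff.1 (hpmem i).1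
    have hBi : ∀ i, (J (p i))ᵀ = -J (p i) := fun i => (hsys (p i)).2.1
    have hBd : ∀ i, (J (p i)).det ≠ 0 := fun i => (hsys (p i)).2.2.1
    let Con : ∀ i, ℚ_[p i][X] → ℚ_[p i] → Prop := fun i Q c =>
      (i = 0 → SCc (p i) (m + 1) Q c) ∧ (i = 1 → SCs (p i) Q c) ∧
        (i = 2 → 2 ≤ m → SCt (p i) Q c) ∧ (i = 3 → 0 < m → SCu (p i) Q c) ∧ (i = 4 → SCg (p i) Q c)
    have hlt : ∀ i, LocalTypeS (p i) (2 * m + 2) (J (p i)) (Con i) := by
      intro i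
      have hm' : 2 * m + 2 < p i := by have := (hplt i).2; omega
      by_cases hi0 : i = 0
      · refine (slt_c hSFORM hTWIST hTYPC (ne_two_of_lt hm') (norm_natCast_eq_one _ ?_) (hBi i)
          (hBd i)).mono fun Q c hQ => ⟨fun _ => hQ, fun h => ?_, fun h => ?_, fun h => ?_, fun h => ?_⟩
        · intro h
          have := Nat.le_of_dvd (by omega) h
          omega
        · exact absurd (h.symm.trans hi0) (by decide)
        · exact absurd (h.symm.trans hi0) (by decide)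
        · exact absurd (h.symm.trans hi0) (by decide)
        · exact absurd (h.symm.trans hi0) (by decide)
      by_cases hi2 : i = 2 ∧ 2 ≤ m
      · refine (slt_t hSFORM hTWIST hTYPT hm' hi2.2 (hBi i) (hBd i)).mono
          fun Q c hQ => ⟨fun h => ?_, fun h => ?_, fun _ _ => hQ, fun h => ?_, fun h => ?_⟩
        · exact absurd (h.symm.trans hi2.1) (by decide)
        · exact absurd (h.symm.trans hi2.1) (by decide)
        · exact absurd (h.symm.trans hi2.1) (by decide)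
        · exact absurd (h.symm.trans hi2.1) (by decide)
      by_cases hi3 : i = 3 ∧ 0 < m
      · refine (slt_u hSFORM hTWIST hTYPU hm' hi3.2 (hBi i) (hBd i)).mono
          fun Q c hQ => ⟨fun h => ?_, fun h => ?_, fun h => ?_, fun _ _ => hQ, fun h => ?_⟩
        · exact absurd (h.symm.trans hi3.1) (by decide)
        · exact absurd (h.symm.trans hi3.1) (by decide)
        · exact absurd (h.symm.trans hi3.1) (by decide)
        · exact absurd (h.symm.trans hi3.1) (by decide)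
      by_cases hi4 : i = 4
      · refine (slt_g hSFORM hTYPG (hBi i) (hBd i)).mono
          fun Q c hQ => ⟨fun h => ?_, fun h => ?_, fun h => ?_, fun h => ?_, fun _ => hQ⟩
        · exact absurd (h.symm.trans hi4) (by decide)
        · exact absurd (h.symm.trans hi4) (by decide)
        · exact absurd (h.symm.trans hi4) (by decide)
        · exact absurd (h.symm.trans hi4) (by decide)
      exact (slt_s hSFORM hTWIST hTYPS hm' (hBi i) (hBd i)).mono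
          fun Q c hQ => ⟨fun h => absurd h hi0, fun _ => hQ, fun h h' => absurd ⟨h, h'⟩ hi2,
            fun h h' => absurd ⟨h, h'⟩ hi3, fun h => absurd h hi4⟩
    obtain ⟨v, hvS, hqv, -, hcon⟩ := realiseS hMULTI hFROB hCHARS (Nat.succ_pos _) hS ρ J hsys (Fin 5)
      p hpinj hpfull Con hlt
    obtain ⟨hmon, hdeg⟩ := monic_of_sys ρ J hsys hvS
    have hC0 := (hcon 0).1.1 rfl
    have hG4 := (hcon 4).1.2.2.2.2 rfl
    have hnice : NiceP S P v := nice_of_p hvS hmon (p 0) hC0.1 hC0.2.2.1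
    have hgen : GenP S P q v := gen_of_p hvS hmon hqv (p 4) hG4.2.1 hG4.2.2
    have hjc : ∀ (j : QQ →+* AlgebraicClosure ℚ_[p 0]) (x : QQ),
        algebraMap ℚ_[p 0] (AlgebraicClosure ℚ_[p 0]) (q v : ℚ_[p 0]) / j x = j ((q v : QQ) / x) := by
      intro j x
      rw [map_div₀, map_ratCast, map_ratCast]
    have hinv : ∀ x : QQ, aeval x (P v) = 0 → x ≠ 0 ∧ aeval ((q v : QQ) / x) (P v) = 0 := by
      intro x hx
      obtain ⟨j⟩ := emb (p 0)
      obtain ⟨h1, h2⟩ := (hcon 0).2 (j x) (push_root (p 0) j hx)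
      refine ⟨fun h => h1 (by rw [h, map_zero]), pull_root (p 0) j ?_⟩
      rw [← hjc]
      exact h2
    have hsq : ∀ x : QQ, aeval x (P v) = 0 → x * x ≠ (q v : QQ) := by
      intro x hx hxx
      obtain ⟨j⟩ := emb (p 0)
      apply hC0.2.1 (j x) (push_root (p 0) j hx)
      rw [← map_mul, hxx, map_ratCast, map_ratCast]
    have hMM' : M ≤ M' := le_sup_left
    have hZM' : Z ≤ M' := le_sup_right
    obtain ⟨hs1, hs2⟩ := surjS hGEN hRES hUNR (m := m) hqv hmon hnice.2.2.1 hdeg hsq hinv M' f hf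
      hMf (fun ζ hζ => hZM' (mem_Lf (by
        have h5 := X_pow_sub_C_ne_zero (n := 2 * (m + 1)) (by omega) (1 : ℚ)
        rwa [C_1] at h5) (by simp [hζ]))) (p 0) (p 1) (p 2) (p 3)
      (hb _ (hplt 0).1 (hpp 0).out) (hb _ (hplt 1).1 (hpp 1).out) (hb _ (hplt 2).1 (hpp 2).out)
      (hb _ (hplt 3).1 (hpp 3).out) hC0 ((hcon 1).1.2.1 rfl) ((hcon 2).1.2.2.1 rfl)
      ((hcon 3).1.2.2.2.1 rfl)
    refine ⟨v, hnice, hgen, hdeg, fun g => ?_, fun g => ?_⟩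
    · obtain ⟨h, hh, hgh⟩ := hs1 g
      exact ⟨h, fun x hx => hh x (hMM' hx), hgh⟩
    · obtain ⟨h, hh, hgh⟩ := hs2 g
      exact ⟨h, fun x hx => hh x (hMM' hx), hgh⟩
  -- the first exceptional set
  have hB1 : ZI.DensityZero {ℓ | ∃ _ : Fact ℓ.Prime, ¬ StronglyIrreducible ℓ (ρ ℓ)} := by
    refine hDENS2 _ (2 * m + 2).factorial (fun ℓ hℓ => hℓ.1.out) fun M hM => ?_
    obtain ⟨v, hnice, hgen, hdeg, hc, -⟩ := key M hM
    obtain ⟨b', hb'⟩ := hIRR (P v) hnice.2.1 hnice.2.2.1 (by omega)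
    refine ⟨Lf (P v), Cyc (P v), Lf_finite _, Lf_normal _, ?_, fun g hg h => cyc_conj hg h,
      fun g hg u hu => cyc_mul hnice.2.1.ne_zero hg hu, hc, max b' (Ideal.absNorm v.asIdeal), ?_⟩
    · have := Lf_finrank hnice.2.2.1
      rwa [hdeg] at this
    · rintro ℓ ⟨hp, hns⟩ hℓ σ hσ hσC
      rw [max_lt_iff] at hℓ
      apply hns
      have hirr := hb' ℓ hℓ.1 hp σ hσ hσC
      exact strong_of_irr hBADIRR hnice ℓ (not_mem_of_lt v hp.out hℓ.2) (ρ ℓ) (J ℓ) (hsys ℓ) hirr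
  -- the second exceptional set
  have hB2 : ZI.DensityZero {ℓ | ∃ _ : Fact ℓ.Prime, ¬ FullSp ℓ (ρ ℓ) (J ℓ) ∧
      StronglyIrreducible ℓ (ρ ℓ)} := by
    refine hDENS2 _ (2 * m + 2).factorial (fun ℓ hℓ => hℓ.1.out) fun M hM => ?_
    obtain ⟨v, hnice, hgen, hdeg, -, hc⟩ := key M hM
    obtain ⟨b', hb'⟩ := hSPL (P v) hnice.2.1 hnice.2.2.1
    refine ⟨Lf (P v), Triv (P v), Lf_finite _, Lf_normal _, ?_, fun g hg h => triv_conj hg h,
      fun g hg u hu => triv_mul hg (fun x hx => hu x (mem_Lf hnice.2.1.ne_zero hx)), hc,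
      max b' (Ideal.absNorm v.asIdeal), ?_⟩
    · have := Lf_finrank hnice.2.2.1
      rwa [hdeg] at this
    · rintro ℓ ⟨hp, hnf, hstr⟩ hℓ σ hσ hσC
      rw [max_lt_iff] at hℓ
      apply hnf
      have hspl := hb' ℓ hℓ.1 hp σ hσ hσC
      exact full_of_split hTAN hEXP hTANS hROOT hgen ℓ (not_mem_of_lt v hp.out hℓ.2) (ρ ℓ) (J ℓ)
        (hsys ℓ) hspl hstr
  refine (hB1.union hB2).mono ?_
  rintro ℓ ⟨hp, hno⟩
  by_cases hs : StronglyIrreducible ℓ (ρ ℓ)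
  · exact Or.inr ⟨hp, hno, hs⟩
  · exact Or.inl ⟨hp, hs⟩

end

end Pool.Agent.Y142.ZS
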