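import Pool.Agent.Y142.ZS.Basic
import Pool.Agent.Y405.ZI.TypU

/-!
# Project ZS: local types
-/

set_option autoImplicit false
set_option linter.style.haveILetI false

open Matrix Polynomial Filter Topology NumberField IsDedekindDomain
open Pool.Agent.Y142.ZO Pool.Agent.Y142.ZI

namespace Pool.Agent.Y142.ZS

/-- the condition `Con` on `Q` and `c` follows from closeness to a suitable tangent vector -/
def LocalTypeS (ℓ : ℕ) [Fact ℓ.Prime] (N : ℕ) (J : Matrix (Fin N) (Fin N) ℚ_[ℓ])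
    (Con : ℚ_[ℓ][X] → ℚ_[ℓ] → Prop) : Prop :=
  ∃ (T : Matrix (Fin N) (Fin N) ℚ_[ℓ]) (ε : ℝ) (k₀ : ℕ), SpLie J T ∧
    0 < ε ∧ ∀ (k : ℕ) (Q : ℚ_[ℓ][X]) (c : ℚ_[ℓ]), k₀ ≤ k → 0 < k → Q.Monic → Q.natDegree = N →
      c ≠ 0 → ‖c - 1‖ < ε * ((ℓ : ℝ) ^ k)⁻¹ →
      (∀ x : AlgebraicClosure ℚ_[ℓ], aeval x Q = 0 →
        x ≠ 0 ∧ aeval (algebraMap ℚ_[ℓ] (AlgebraicClosure ℚ_[ℓ]) c / x) Q = 0) →
      (∀ j, ‖(resc ℓ k Q - T.charpoly).coeff j‖ < ε) → Con Q c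

def SCc (ℓ : ℕ) [Fact ℓ.Prime] (n : ℕ) (Q : ℚ_[ℓ][X]) (c : ℚ_[ℓ]) : Prop :=
  Q.Separable ∧
    (∀ x : AlgebraicClosure ℚ_[ℓ], aeval x Q = 0 →
      x * x ≠ algebraMap ℚ_[ℓ] (AlgebraicClosure ℚ_[ℓ]) c) ∧
    (∀ (j : ℕ) (x y : AlgebraicClosure ℚ_[ℓ]), 0 < j → aeval x Q = 0 →
      aeval y Q = 0 → x ^ j = y ^ j → x = y) ∧
    ∀ F : IntermediateField ℚ_[ℓ] (AlgebraicClosure ℚ_[ℓ]), Unr ℓ F →
      (∀ ζ : AlgebraicClosure ℚ_[ℓ], ζ ^ (2 * n) = 1 → ζ ∈ F) →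
      ∃ τ : AlgebraicClosure ℚ_[ℓ] ≃ₐ[F] AlgebraicClosure ℚ_[ℓ],
        ∀ x y : AlgebraicClosure ℚ_[ℓ], aeval x Q = 0 → aeval y Q = 0 → ∃ i : ℕ, (τ ^ i) x = y

def SCs (ℓ : ℕ) [Fact ℓ.Prime] (Q : ℚ_[ℓ][X]) (c : ℚ_[ℓ]) : Prop :=
  ∀ F : IntermediateField ℚ_[ℓ] (AlgebraicClosure ℚ_[ℓ]), Unr ℓ F →
    ∃ (τ : AlgebraicClosure ℚ_[ℓ] ≃ₐ[F] AlgebraicClosure ℚ_[ℓ]) (x : AlgebraicClosure ℚ_[ℓ]),
      aeval x Q = 0 ∧ τ x = algebraMap ℚ_[ℓ] (AlgebraicClosure ℚ_[ℓ]) c / x ∧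
        ∀ y, aeval y Q = 0 → y ≠ x → y ≠ algebraMap ℚ_[ℓ] (AlgebraicClosure ℚ_[ℓ]) c / x → τ y = y

def SCt (ℓ : ℕ) [Fact ℓ.Prime] (Q : ℚ_[ℓ][X]) (c : ℚ_[ℓ]) : Prop :=
  ∀ F : IntermediateField ℚ_[ℓ] (AlgebraicClosure ℚ_[ℓ]), Unr ℓ F →
    ∃ (τ : AlgebraicClosure ℚ_[ℓ] ≃ₐ[F] AlgebraicClosure ℚ_[ℓ]) (x y : AlgebraicClosure ℚ_[ℓ]),
      aeval x Q = 0 ∧ aeval y Q = 0 ∧ y ≠ x ∧ y ≠ algebraMap ℚ_[ℓ] (AlgebraicClosure ℚ_[ℓ]) c / x ∧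
      τ x = y ∧ τ y = x ∧
      ∀ z, aeval z Q = 0 → z ≠ x → z ≠ algebraMap ℚ_[ℓ] (AlgebraicClosure ℚ_[ℓ]) c / x → z ≠ y →
        z ≠ algebraMap ℚ_[ℓ] (AlgebraicClosure ℚ_[ℓ]) c / y →
        (τ z = z ∨ τ z = algebraMap ℚ_[ℓ] (AlgebraicClosure ℚ_[ℓ]) c / z)

def SCu (ℓ : ℕ) [Fact ℓ.Prime] (Q : ℚ_[ℓ][X]) (c : ℚ_[ℓ]) : Prop :=
  ∀ F : IntermediateField ℚ_[ℓ] (AlgebraicClosure ℚ_[ℓ]), Unr ℓ F →
    ∃ z₀ : AlgebraicClosure ℚ_[ℓ], aeval z₀ Q = 0 ∧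
      ∀ x y, aeval x Q = 0 → aeval y Q = 0 → x ≠ z₀ →
        x ≠ algebraMap ℚ_[ℓ] (AlgebraicClosure ℚ_[ℓ]) c / z₀ → y ≠ z₀ →
        y ≠ algebraMap ℚ_[ℓ] (AlgebraicClosure ℚ_[ℓ]) c / z₀ →
      ∃ τ : AlgebraicClosure ℚ_[ℓ] ≃ₐ[F] AlgebraicClosure ℚ_[ℓ],
        (τ z₀ = z₀ ∨ τ z₀ = algebraMap ℚ_[ℓ] (AlgebraicClosure ℚ_[ℓ]) c / z₀) ∧
        (τ x = y ∨ τ x = algebraMap ℚ_[ℓ] (AlgebraicClosure ℚ_[ℓ]) c / y)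

def SCg (ℓ : ℕ) [Fact ℓ.Prime] (Q : ℚ_[ℓ][X]) (c : ℚ_[ℓ]) : Prop :=
  Q.Splits ∧ Q.Separable ∧ Generic Q c

def SCcu (ℓ : ℕ) [Fact ℓ.Prime] (Q : ℚ_[ℓ][X]) (_ : ℚ_[ℓ]) : Prop :=
  Q.Separable ∧
    (∀ (j : ℕ) (x y : AlgebraicClosure ℚ_[ℓ]), 0 < j → aeval x Q = 0 → aeval y Q = 0 →
      x ^ j = y ^ j → x = y) ∧
    ∃ τ : AlgebraicClosure ℚ_[ℓ] ≃ₐ[ℚ_[ℓ]] AlgebraicClosure ℚ_[ℓ],
      ∀ x y : AlgebraicClosure ℚ_[ℓ], aeval x Q = 0 → aeval y Q = 0 → ∃ i : ℕ, (τ ^ i) x = y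

section
variable {ℓ : ℕ} [hℓ : Fact ℓ.Prime]

/-- weakening -/
theorem LocalTypeS.mono {N : ℕ} {J : Matrix (Fin N) (Fin N) ℚ_[ℓ]} {C₁ C₂ : ℚ_[ℓ][X] → ℚ_[ℓ] → Prop}
    (h : LocalTypeS ℓ N J C₁) (h12 : ∀ Q c, C₁ Q c → C₂ Q c) : LocalTypeS ℓ N J C₂ := by
  obtain ⟨T, ε, k₀, h1, h3, h4⟩ := h
  exact ⟨T, ε, k₀, h1, h3, fun k Q c z a b d e f g i => h12 Q c (h4 k Q c z a b d e f g i)⟩

theorem fix_alg {F : IntermediateField ℚ_[ℓ] (AlgebraicClosure ℚ_[ℓ])}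
    (τ : AlgebraicClosure ℚ_[ℓ] ≃ₐ[F] AlgebraicClosure ℚ_[ℓ]) (s : ℚ_[ℓ]) :
    τ (algebraMap ℚ_[ℓ] (AlgebraicClosure ℚ_[ℓ]) s) = algebraMap ℚ_[ℓ] (AlgebraicClosure ℚ_[ℓ]) s :=
  τ.commutes (algebraMap ℚ_[ℓ] F s)

theorem fix_alg_pow {F : IntermediateField ℚ_[ℓ] (AlgebraicClosure ℚ_[ℓ])}
    (τ : AlgebraicClosure ℚ_[ℓ] ≃ₐ[F] AlgebraicClosure ℚ_[ℓ]) (s : ℚ_[ℓ]) (i : ℕ) :
    (τ ^ i) (algebraMap ℚ_[ℓ] (AlgebraicClosure ℚ_[ℓ]) s) =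
      algebraMap ℚ_[ℓ] (AlgebraicClosure ℚ_[ℓ]) s := fix_alg (τ ^ i) s

/-- separability by counting roots -/
theorem sep_of_bij {N : ℕ} {Q Q' : ℚ_[ℓ][X]} {s : ℚ_[ℓ]} (hs : s ≠ 0) (hQ : Q.Monic)
    (hd : Q.natDegree = N) (hQ' : Q'.Monic) (hd' : Q'.natDegree = N) (hsep : Q'.Separable)
    (hiff : ∀ x : AlgebraicClosure ℚ_[ℓ],
      aeval x Q' = 0 ↔ aeval (algebraMap ℚ_[ℓ] (AlgebraicClosure ℚ_[ℓ]) s * x) Q = 0) :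
    Q.Separable := by
  classical
  set Ω := AlgebraicClosure ℚ_[ℓ]
  have h1 : Fintype.card (Q'.rootSet Ω) = N := by
    rw [← hd']
    exact card_rootSet_eq_natDegree hsep (IsAlgClosed.splits _)
  have hs' : algebraMap ℚ_[ℓ] Ω s ≠ 0 := by
    intro h
    exact hs ((map_eq_zero _).1 h)
  have h2 : Fintype.card (Q'.rootSet Ω) ≤ Fintype.card (Q.rootSet Ω) := by
    refine Fintype.card_le_of_injective (fun x => ⟨algebraMap ℚ_[ℓ] Ω s * x.1, ?_⟩) ?_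
    · rw [mem_rootSet_of_ne hQ.ne_zero]
      exact (hiff x.1).1 ((mem_rootSet_of_ne hQ'.ne_zero).1 x.2)
    · intro x y hxy
      have := congrArg Subtype.val hxy
      exact Subtype.ext (mul_left_cancel₀ hs' this)
  have h3 : (Q.map (algebraMap ℚ_[ℓ] Ω)).roots.toFinset.card = Fintype.card (Q.rootSet Ω) := by
    rw [← Set.toFinset_card]
    congr 1
    ext x
    simp [Polynomial.rootSet_def, aroots]
  have h4 : Multiset.card (Q.map (algebraMap ℚ_[ℓ] Ω)).roots = N := by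
    rw [← hd, ← natDegree_map (algebraMap ℚ_[ℓ] Ω)]
    exact splits_iff_card_roots.1 (IsAlgClosed.splits _)
  have h5 : (Q.map (algebraMap ℚ_[ℓ] Ω)).roots.Nodup := by
    rw [← Multiset.toFinset_card_eq_card_iff_nodup]
    apply le_antisymm (Multiset.toFinset_card_le _)
    rw [h3, h4]
    omega
  have h6 : (Q.map (algebraMap ℚ_[ℓ] Ω)).Separable :=
    (nodup_roots_iff_of_splits (hQ.map _).ne_zero (IsAlgClosed.splits _)).1 h5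
  exact (separable_map _).1 h6

section transfer
variable {Q Q' : ℚ_[ℓ][X]} {c s : ℚ_[ℓ]}

theorem root_iff (hs : s ≠ 0) (hiff : ∀ x : AlgebraicClosure ℚ_[ℓ],
      aeval x Q' = 0 ↔ aeval (algebraMap ℚ_[ℓ] (AlgebraicClosure ℚ_[ℓ]) s * x) Q = 0)
    {x : AlgebraicClosure ℚ_[ℓ]} (hx : aeval x Q = 0) :
    ∃ x' : AlgebraicClosure ℚ_[ℓ], aeval x' Q' = 0 ∧ algebraMap ℚ_[ℓ] (AlgebraicClosure ℚ_[ℓ]) s * x' = x := by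
  have hs' : algebraMap ℚ_[ℓ] (AlgebraicClosure ℚ_[ℓ]) s ≠ 0 := by
    intro h
    exact hs ((map_eq_zero _).1 h)
  refine ⟨(algebraMap ℚ_[ℓ] (AlgebraicClosure ℚ_[ℓ]) s)⁻¹ * x, ?_, mul_inv_cancel_left₀ hs' x⟩
  rw [hiff, mul_inv_cancel_left₀ hs']
  exact hx

theorem div_eq (hs : s ≠ 0) (hsc : s * s = c) (x : AlgebraicClosure ℚ_[ℓ]) :
    algebraMap ℚ_[ℓ] (AlgebraicClosure ℚ_[ℓ]) c / (algebraMap ℚ_[ℓ] (AlgebraicClosure ℚ_[ℓ]) s * x) =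
      algebraMap ℚ_[ℓ] (AlgebraicClosure ℚ_[ℓ]) s * x⁻¹ := by
  have hs' : algebraMap ℚ_[ℓ] (AlgebraicClosure ℚ_[ℓ]) s ≠ 0 := by
    intro h
    exact hs ((map_eq_zero _).1 h)
  rw [← hsc, map_mul, mul_div_mul_left _ _ hs', div_eq_mul_inv]

theorem tr_s (hs : s ≠ 0) (hsc : s * s = c) (hiff : ∀ x : AlgebraicClosure ℚ_[ℓ],
      aeval x Q' = 0 ↔ aeval (algebraMap ℚ_[ℓ] (AlgebraicClosure ℚ_[ℓ]) s * x) Q = 0)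
    (h : ConS ℓ Q') : SCs ℓ Q c := by
  have hs' : algebraMap ℚ_[ℓ] (AlgebraicClosure ℚ_[ℓ]) s ≠ 0 := by
    intro h
    exact hs ((map_eq_zero _).1 h)
  intro F hF
  obtain ⟨τ, x, hx, hτ, hy⟩ := h F hF
  refine ⟨τ, algebraMap ℚ_[ℓ] (AlgebraicClosure ℚ_[ℓ]) s * x, (hiff x).1 hx, ?_, ?_⟩
  · rw [div_eq hs hsc, map_mul, fix_alg, hτ]
  · intro y hy0 hy1 hy2
    obtain ⟨y', hy', rfl⟩ := root_iff hs hiff hy0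
    rw [div_eq hs hsc] at hy2
    rw [map_mul, fix_alg, hy y' hy' (fun h => hy1 (by rw [h])) (fun h => hy2 (by rw [h]))]

theorem tr_t (hs : s ≠ 0) (hsc : s * s = c) (hiff : ∀ x : AlgebraicClosure ℚ_[ℓ],
      aeval x Q' = 0 ↔ aeval (algebraMap ℚ_[ℓ] (AlgebraicClosure ℚ_[ℓ]) s * x) Q = 0)
    (h : ConT ℓ Q') : SCt ℓ Q c := by
  have hs' : algebraMap ℚ_[ℓ] (AlgebraicClosure ℚ_[ℓ]) s ≠ 0 := by
    intro h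
    exact hs ((map_eq_zero _).1 h)
  intro F hF
  obtain ⟨τ, x, y, hx, hy, hyx, hyx', hτx, hτy, hz⟩ := h F hF
  refine ⟨τ, algebraMap ℚ_[ℓ] (AlgebraicClosure ℚ_[ℓ]) s * x,
    algebraMap ℚ_[ℓ] (AlgebraicClosure ℚ_[ℓ]) s * y, (hiff x).1 hx, (hiff y).1 hy, ?_, ?_, ?_, ?_, ?_⟩
  · exact fun h => hyx (mul_left_cancel₀ hs' h)
  · rw [div_eq hs hsc]
    exact fun h => hyx' (mul_left_cancel₀ hs' h)
  · rw [map_mul, fix_alg, hτx]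
  · rw [map_mul, fix_alg, hτy]
  · intro z hz0 hz1 hz2 hz3 hz4
    obtain ⟨z', hz', rfl⟩ := root_iff hs hiff hz0
    rw [div_eq hs hsc] at hz2 hz4 ⊢
    rw [map_mul, fix_alg]
    rcases hz z' hz' (fun h => hz1 (by rw [h])) (fun h => hz2 (by rw [h])) (fun h => hz3 (by rw [h]))
      (fun h => hz4 (by rw [h])) with h | h
    · left; rw [h]
    · right; rw [h]

theorem tr_u (hs : s ≠ 0) (hsc : s * s = c) (hiff : ∀ x : AlgebraicClosure ℚ_[ℓ],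
      aeval x Q' = 0 ↔ aeval (algebraMap ℚ_[ℓ] (AlgebraicClosure ℚ_[ℓ]) s * x) Q = 0)
    (h : ConU ℓ Q') : SCu ℓ Q c := by
  have hs' : algebraMap ℚ_[ℓ] (AlgebraicClosure ℚ_[ℓ]) s ≠ 0 := by
    intro h
    exact hs ((map_eq_zero _).1 h)
  intro F hF
  obtain ⟨z₀, hz₀, hz⟩ := h F hF
  refine ⟨algebraMap ℚ_[ℓ] (AlgebraicClosure ℚ_[ℓ]) s * z₀, (hiff z₀).1 hz₀, ?_⟩
  intro x y hx hy hx1 hx2 hy1 hy2
  obtain ⟨x', hx', rfl⟩ := root_iff hs hiff hx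
  obtain ⟨y', hy', rfl⟩ := root_iff hs hiff hy
  rw [div_eq hs hsc] at hx2 hy2
  obtain ⟨τ, h1, h2⟩ := hz x' y' hx' hy' (fun h => hx1 (by rw [h])) (fun h => hx2 (by rw [h]))
    (fun h => hy1 (by rw [h])) (fun h => hy2 (by rw [h]))
  refine ⟨τ, ?_, ?_⟩
  · rw [div_eq hs hsc, map_mul, fix_alg]
    rcases h1 with h | h
    · left; rw [h]
    · right; rw [h]
  · rw [div_eq hs hsc, map_mul, fix_alg]
    rcases h2 with h | h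
    · left; rw [h]
    · right; rw [h]

theorem tr_c {n N : ℕ} (hs : s ≠ 0) (hsc : s * s = c) (hQ : Q.Monic)
    (hd : Q.natDegree = N) (hQ' : Q'.Monic) (hd' : Q'.natDegree = N)
    (hiff : ∀ x : AlgebraicClosure ℚ_[ℓ],
      aeval x Q' = 0 ↔ aeval (algebraMap ℚ_[ℓ] (AlgebraicClosure ℚ_[ℓ]) s * x) Q = 0)
    (h : ConC ℓ n Q') : SCc ℓ n Q c := by
  have hs' : algebraMap ℚ_[ℓ] (AlgebraicClosure ℚ_[ℓ]) s ≠ 0 := by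
    intro h
    exact hs ((map_eq_zero _).1 h)
  obtain ⟨hsep, he1, he2, hpow, hF⟩ := h
  refine ⟨sep_of_bij hs hQ hd hQ' hd' hsep hiff, ?_, ?_, ?_⟩
  · intro x hx hxx
    obtain ⟨x', hx', rfl⟩ := root_iff hs hiff hx
    rw [← hsc, map_mul] at hxx
    have h1 : x' * x' = 1 := by
      have h2 : (algebraMap ℚ_[ℓ] (AlgebraicClosure ℚ_[ℓ]) s * algebraMap ℚ_[ℓ] (AlgebraicClosure ℚ_[ℓ]) s) *
          (x' * x') = (algebraMap ℚ_[ℓ] (AlgebraicClosure ℚ_[ℓ]) s * algebraMap ℚ_[ℓ] (AlgebraicClosure ℚ_[ℓ]) s) * 1 := by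
        rw [mul_one, mul_mul_mul_comm, hxx]
      exact mul_left_cancel₀ (mul_ne_zero hs' hs') h2
    rcases mul_self_eq_one_iff.1 h1 with h | h
    · apply he1
      rw [h] at hx'
      have h3 : aeval (algebraMap ℚ_[ℓ] (AlgebraicClosure ℚ_[ℓ]) 1) Q' =
        algebraMap ℚ_[ℓ] (AlgebraicClosure ℚ_[ℓ]) (Q'.eval 1) :=
        aeval_algebraMap_apply_eq_algebraMap_eval _ _
      rw [map_one, hx'] at h3
      exact (map_eq_zero _).1 h3.symm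
    · apply he2
      rw [h] at hx'
      have h3 : aeval (algebraMap ℚ_[ℓ] (AlgebraicClosure ℚ_[ℓ]) (-1)) Q' =
        algebraMap ℚ_[ℓ] (AlgebraicClosure ℚ_[ℓ]) (Q'.eval (-1)) :=
        aeval_algebraMap_apply_eq_algebraMap_eval _ _
      rw [map_neg, map_one, hx'] at h3
      exact (map_eq_zero _).1 h3.symm
  · intro j x y hj hx hy hxy
    obtain ⟨x', hx', rfl⟩ := root_iff hs hiff hx
    obtain ⟨y', hy', rfl⟩ := root_iff hs hiff hy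
    rw [mul_pow, mul_pow] at hxy
    have h1 := mul_left_cancel₀ (pow_ne_zero j hs') hxy
    rw [hpow j x' y' hj (by rw [map_mul, hx', mul_zero]) (by rw [map_mul, hy', mul_zero]) h1]
  · intro F hFu hζ
    obtain ⟨τ, hτ⟩ := hF F hFu hζ
    refine ⟨τ, fun x y hx hy => ?_⟩
    obtain ⟨x', hx', rfl⟩ := root_iff hs hiff hx
    obtain ⟨y', hy', rfl⟩ := root_iff hs hiff hy
    obtain ⟨i, hi⟩ := hτ x' y' hx' hy'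
    exact ⟨i, by rw [map_mul, fix_alg_pow, hi]⟩

end transfer

/-- twisted local types -/
theorem lt_twist {N : ℕ} {J : Matrix (Fin N) (Fin N) ℚ_[ℓ]} (hSFORM : S_SFORM) (hTWIST : S_TWIST)
    (h2 : ℓ ≠ 2) (hJ : Jᵀ = -J) (hdet : J.det ≠ 0) {R₀ : ℚ_[ℓ][X]} (hR : R₀.Monic)
    (hRd : R₀.natDegree = N) (hRe : R₀.comp (-X) = R₀) {Con' : ℚ_[ℓ][X] → Prop}
    (hCon' : ∃ ε : ℝ, 0 < ε ∧ ∀ (k : ℕ) (Q : ℚ_[ℓ][X]), 0 < k → Q.Monic → Q.natDegree = N →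
      (∀ x : AlgebraicClosure ℚ_[ℓ], aeval x Q = 0 → x ≠ 0 ∧ aeval x⁻¹ Q = 0) →
      (∀ j, ‖(resc ℓ k Q - R₀).coeff j‖ < ε) → Con' Q) {Con : ℚ_[ℓ][X] → ℚ_[ℓ] → Prop}
    (htr : ∀ (Q Q' : ℚ_[ℓ][X]) (c s : ℚ_[ℓ]), s ≠ 0 → s * s = c → Q.Monic → Q.natDegree = N →
      Q'.Monic → Q'.natDegree = N → (∀ x : AlgebraicClosure ℚ_[ℓ],
        aeval x Q' = 0 ↔ aeval (algebraMap ℚ_[ℓ] (AlgebraicClosure ℚ_[ℓ]) s * x) Q = 0) →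
      Con' Q' → Con Q c) : LocalTypeS ℓ N J Con := by
  obtain ⟨T, hT, hTc⟩ := hSFORM ℚ_[ℓ] N J R₀ hJ hdet hR hRd hRe
  obtain ⟨ε, hε, hcon⟩ := hCon'
  obtain ⟨ε', hε', htw⟩ := hTWIST ℓ h2 R₀ hR ε hε
  refine ⟨T, ε', 0, hT, hε', fun k Q c _ hk hmon hdeg hc hc1 hinv hclose => ?_⟩
  rw [hTc] at hclose
  obtain ⟨s, Q', hs, hm', hd', hinv', hcl', hiff⟩ := htw k Q c hk hmon (hdeg.trans hRd.symm) hc hc1
    hinv hclose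
  have hs0 : s ≠ 0 := by
    rintro rfl
    exact hc (by rw [← hs, mul_zero])
  exact htr Q Q' c s hs0 hs hmon hdeg hm' (hd'.trans hRd) hiff
    (hcon k Q' hk hm' (hd'.trans hRd) hinv' hcl')

theorem even_c {n : ℕ} (c : ℚ_[ℓ]) (hn : 0 < n) : (X ^ (2 * n) - C c : ℚ_[ℓ][X]).Monic ∧
    (X ^ (2 * n) - C c : ℚ_[ℓ][X]).natDegree = 2 * n ∧
    (X ^ (2 * n) - C c : ℚ_[ℓ][X]).comp (-X) = X ^ (2 * n) - C c := by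
  refine ⟨monic_X_pow_sub_C c (by omega), natDegree_X_pow_sub_C, ?_⟩
  rw [sub_comp, pow_comp, X_comp, C_comp, pow_mul, neg_sq, ← pow_mul]

theorem even_A {m : ℕ} (A : Matrix (Fin m) (Fin m) ℚ_[ℓ]) (c : ℚ_[ℓ]) :
    ((X ^ 2 - C c) * A.charpoly * (-A).charpoly).Monic ∧
    ((X ^ 2 - C c) * A.charpoly * (-A).charpoly).natDegree = 2 * m + 2 ∧
    ((X ^ 2 - C c) * A.charpoly * (-A).charpoly).comp (-X) =
      (X ^ 2 - C c) * A.charpoly * (-A).charpoly := by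
  have h1 : (X ^ 2 - C c : ℚ_[ℓ][X]).Monic := monic_X_pow_sub_C c (by omega)
  have h2 := charpoly_monic A
  have h3 := charpoly_monic (-A)
  have d1 : (X ^ 2 - C c : ℚ_[ℓ][X]).natDegree = 2 := natDegree_X_pow_sub_C
  have d2 := charpoly_natDegree_eq_dim A
  have d3 := charpoly_natDegree_eq_dim (-A)
  rw [Fintype.card_fin] at d2 d3
  refine ⟨(h1.mul h2).mul h3, ?_, ?_⟩
  · rw [(h1.mul h2).natDegree_mul h3, h1.natDegree_mul h2, d1, d2, d3]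
    omega
  · have e1 := Pool.Agent.Y405.ZI.charpoly_neg' A
    have e2 := Pool.Agent.Y405.ZI.charpoly_neg' (-A)
    rw [neg_neg] at e2
    have e3 : A.charpoly.comp (-X) = (-1) ^ m * (-A).charpoly := by
      rw [e1, ← mul_assoc, ← mul_pow, neg_one_mul, neg_neg, one_pow, one_mul]
    have e4 : (-A).charpoly.comp (-X) = (-1) ^ m * A.charpoly := by
      rw [e2, ← mul_assoc, ← mul_pow, neg_one_mul, neg_neg, one_pow, one_mul]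
    rw [mul_comp, mul_comp, e3, e4, sub_comp, pow_comp, X_comp, C_comp, neg_sq]
    have e5 : ((-1 : ℚ_[ℓ][X]) ^ m) * (-1) ^ m = 1 := by
      rw [← mul_pow, neg_one_mul, neg_neg, one_pow]
    calc (X ^ 2 - C c) * ((-1) ^ m * (-A).charpoly) * ((-1) ^ m * A.charpoly)
        = (X ^ 2 - C c) * A.charpoly * (-A).charpoly * ((-1) ^ m * (-1) ^ m) := by ring
      _ = _ := by rw [e5, mul_one]

theorem norm_ell : ‖(ℓ : ℚ_[ℓ])‖ = (ℓ : ℝ)⁻¹ := Padic.norm_p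

variable {m : ℕ} {J : Matrix (Fin (2 * m + 2)) (Fin (2 * m + 2)) ℚ_[ℓ]}

theorem slt_c (hSFORM : S_SFORM) (hTWIST : S_TWIST) (hTYPC : S_TYPC) (h2 : ℓ ≠ 2)
    (hm : ‖((2 * (m + 1) : ℕ) : ℚ_[ℓ])‖ = 1) (hJ : Jᵀ = -J) (hdet : J.det ≠ 0) :
    LocalTypeS ℓ (2 * m + 2) J (SCc ℓ (m + 1)) := by
  obtain ⟨ε, hε, h⟩ := hTYPC ℓ h2 (m + 1) (ℓ : ℚ_[ℓ]) (Nat.succ_pos m) hm norm_ell
  obtain ⟨e1, e2, e3⟩ := even_c (ℓ : ℚ_[ℓ]) (Nat.succ_pos m)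
  refine lt_twist hSFORM hTWIST h2 hJ hdet e1 (by omega) e3 (Con' := ConC ℓ (m + 1))
    ⟨ε, hε, fun k Q hk hmon hdeg hinv hclose => h k Q hk hmon (by omega) hinv hclose⟩
    fun Q Q' c s hs hsc hQ hd hQ' hd' hiff hc => tr_c hs hsc hQ hd hQ' hd' hiff hc

theorem slt_s (hSFORM : S_SFORM) (hTWIST : S_TWIST) (hTYPS : S_TYPS) (hm : 2 * m + 2 < ℓ)
    (hJ : Jᵀ = -J) (hdet : J.det ≠ 0) : LocalTypeS ℓ (2 * m + 2) J (SCs ℓ) := by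
  obtain ⟨A, hA⟩ := hTYPS ℓ m hm
  obtain ⟨ε, hε, h⟩ := hA (ℓ : ℚ_[ℓ]) norm_ell
  obtain ⟨e1, e2, e3⟩ := even_A A (ℓ : ℚ_[ℓ])
  exact lt_twist hSFORM hTWIST (ne_two_of_lt hm) hJ hdet e1 e2 e3 (Con' := ConS ℓ)
    ⟨ε, hε, fun k Q hk hmon hdeg hinv hclose => h k Q hk hmon hdeg hinv hclose⟩
    fun Q Q' c s hs hsc hQ hd hQ' hd' hiff hc => tr_s hs hsc hiff hc

theorem slt_t (hSFORM : S_SFORM) (hTWIST : S_TWIST) (hTYPT : S_TYPT) (hm : 2 * m + 2 < ℓ)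
    (hm2 : 2 ≤ m) (hJ : Jᵀ = -J) (hdet : J.det ≠ 0) : LocalTypeS ℓ (2 * m + 2) J (SCt ℓ) := by
  obtain ⟨A, hA⟩ := hTYPT ℓ m hm hm2
  obtain ⟨ε, hε, h⟩ := hA (ℓ : ℚ_[ℓ]) norm_ell
  obtain ⟨e1, e2, e3⟩ := even_A A (ℓ : ℚ_[ℓ])
  exact lt_twist hSFORM hTWIST (ne_two_of_lt hm) hJ hdet e1 e2 e3 (Con' := ConT ℓ)
    ⟨ε, hε, fun k Q hk hmon hdeg hinv hclose => h k Q hk hmon hdeg hinv hclose⟩
    fun Q Q' c s hs hsc hQ hd hQ' hd' hiff hc => tr_t hs hsc hiff hc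

theorem slt_u (hSFORM : S_SFORM) (hTWIST : S_TWIST) (hTYPU : S_TYPU) (hm : 2 * m + 2 < ℓ)
    (hm1 : 0 < m) (hJ : Jᵀ = -J) (hdet : J.det ≠ 0) : LocalTypeS ℓ (2 * m + 2) J (SCu ℓ) := by
  obtain ⟨A, hA⟩ := hTYPU ℓ m hm hm1
  obtain ⟨ε, hε, h⟩ := hA (ℓ : ℚ_[ℓ]) norm_ell
  obtain ⟨e1, e2, e3⟩ := even_A A (ℓ : ℚ_[ℓ])
  exact lt_twist hSFORM hTWIST (ne_two_of_lt hm) hJ hdet e1 e2 e3 (Con' := ConU ℓ)
    ⟨ε, hε, fun k Q hk hmon hdeg hinv hclose => h k Q hk hmon hdeg hinv hclose⟩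
    fun Q Q' c s hs hsc hQ hd hQ' hd' hiff hc => tr_u hs hsc hiff hc

theorem slt_g (hSFORM : S_SFORM) (hTYPG : S_TYPG) (hJ : Jᵀ = -J) (hdet : J.det ≠ 0) :
    LocalTypeS ℓ (2 * m + 2) J (SCg ℓ) := by
  obtain ⟨R₀, hR, hRd, hRe, ε, k₀, hε, h⟩ := hTYPG ℓ (m + 1)
  obtain ⟨T, hT, hTc⟩ := hSFORM ℚ_[ℓ] (2 * m + 2) J R₀ hJ hdet hR (by omega) hRe
  refine ⟨T, ε, k₀, hT, hε, fun k Q c hk₀ hk hmon hdeg hc hc1 hinv hclose => ?_⟩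
  rw [hTc] at hclose
  exact h k Q c hk₀ hmon (by omega) hc hc1 hinv hclose

theorem slt_cu (hSFORM : S_SFORM) (hTYPCU : S_TYPCU) (h2 : ℓ ≠ 2) (hJ : Jᵀ = -J)
    (hdet : J.det ≠ 0) : LocalTypeS ℓ (2 * m + 2) J (SCcu ℓ) := by
  obtain ⟨R₀, hR, hRd, hRe, ε, hε, h⟩ := hTYPCU ℓ h2 (m + 1) (Nat.succ_pos m)
  obtain ⟨T, hT, hTc⟩ := hSFORM ℚ_[ℓ] (2 * m + 2) J R₀ hJ hdet hR (by omega) hRe
  refine ⟨T, ε, 0, hT, hε, fun k Q c hk₀ hk hmon hdeg hc hc1 hinv hclose => ?_⟩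
  rw [hTc] at hclose
  exact h k Q hk hmon (by omega) hclose

end

section
variable {K : Type} [Field K] [NumberField K] {N : ℕ} {S : Set (HeightOneSpectrum (𝓞 K))}
  {P : HeightOneSpectrum (𝓞 K) → ℚ[X]} {q : HeightOneSpectrum (𝓞 K) → ℚ}

/-- simultaneous realisation of local types -/
theorem realiseS (hMULTI : S_MULTI) (hFROB : S_FROB) (hCHARS : S_CHARS) (hN : 0 < N)
    (hS : S.Finite)
    (ρ : ∀ (ℓ : ℕ) [Fact ℓ.Prime], GK K →* Matrix (Fin N) (Fin N) ℚ_[ℓ])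
    (J : ∀ (ℓ : ℕ) [Fact ℓ.Prime], Matrix (Fin N) (Fin N) ℚ_[ℓ])
    (hsys : ∀ (ℓ : ℕ) [Fact ℓ.Prime], SpSys K N ℓ (ρ ℓ) (J ℓ) S P q)
    (I : Type) [Fintype I] [Nonempty I] (p : I → ℕ) [hp : ∀ i, Fact (p i).Prime]
    (hinj : Function.Injective p) (hfull : ∀ i, FullSp (p i) (ρ (p i)) (J (p i)))
    (Con : ∀ i, ℚ_[p i][X] → ℚ_[p i] → Prop)
    (hlt : ∀ i, LocalTypeS (p i) N (J (p i)) (Con i)) :
    ∃ v : HeightOneSpectrum (𝓞 K), v ∉ S ∧ q v ≠ 0 ∧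
      (∀ i, (p i : 𝓞 K) ∉ v.asIdeal) ∧
      ∀ i, Con i ((P v).map (algebraMap ℚ ℚ_[p i])) (q v : ℚ_[p i]) ∧
        ∀ x : AlgebraicClosure ℚ_[p i], aeval x ((P v).map (algebraMap ℚ ℚ_[p i])) = 0 →
          x ≠ 0 ∧ aeval (algebraMap ℚ_[p i] (AlgebraicClosure ℚ_[p i]) (q v : ℚ_[p i]) / x)
            ((P v).map (algebraMap ℚ ℚ_[p i])) = 0 := by
  classical
  choose T ε k₀' hT hε hcon using hlt
  have hchar : ∀ i, ∃ (δ : ℝ) (k₀ : ℕ), 0 < δ ∧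
      ∀ (k : ℕ) (g : Matrix (Fin N) (Fin N) ℚ_[p i]) (c : ℚ_[p i]), k₀ ≤ k → Sim (J (p i)) g c →
      (∀ a b, ‖((((p i : ℚ_[p i]) ^ k)⁻¹ • (g - 1)) - T i) a b‖ < δ) →
      c ≠ 0 ∧ ‖c - 1‖ < ε i * ((p i : ℝ) ^ k)⁻¹ ∧
        (∀ j, ‖(resc (p i) k g.charpoly - (T i).charpoly).coeff j‖ < ε i) ∧
        ∀ x : AlgebraicClosure ℚ_[p i], aeval x g.charpoly = 0 →
          x ≠ 0 ∧ aeval (algebraMap ℚ_[p i] (AlgebraicClosure ℚ_[p i]) c / x) g.charpoly = 0 := by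
    intro i
    exact hCHARS (p i) N hN (J (p i)) (T i) (hsys (p i)).2.1 (hsys (p i)).2.2.1 (hT i)
      (ε i) (hε i)
  choose δ k₀ hδ hchar using hchar
  have hδ' : ∃ d : ℝ, 0 < d ∧ ∀ i, d ≤ δ i := by
    refine ⟨Finset.univ.inf' Finset.univ_nonempty δ, ?_, fun i => Finset.inf'_le _ (Finset.mem_univ i)⟩
    rw [Finset.lt_inf'_iff]
    exact fun i _ => hδ i
  obtain ⟨d, hd, hdδ⟩ := hδ'
  set k₁ : ℕ := (Finset.univ.sup k₀ + Finset.univ.sup k₀') + 1 with hk₁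
  have hk₁' : ∀ i, k₀ i ≤ k₁ := fun i => by
    have := Finset.le_sup (f := k₀) (Finset.mem_univ i)
    omega
  have hk₁'' : ∀ i, k₀' i ≤ k₁ := fun i => by
    have := Finset.le_sup (f := k₀') (Finset.mem_univ i)
    omega
  obtain ⟨O, hO, hOne, hOσ⟩ := hMULTI (GK K) N I p hinj (fun i => ρ (p i)) (fun i => (hsys (p i)).1) T
    (fun i => hfull i (T i) (hT i)) d k₁ hd
  have hfin : (S ∪ ⋃ i, {v : HeightOneSpectrum (𝓞 K) | (p i : 𝓞 K) ∈ v.asIdeal}).Finite :=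
    hS.union (Set.finite_iUnion fun i => finite_above (p i) (hp i).out)
  obtain ⟨v, hv, σ, hσ, hσO⟩ := hFROB K O hO hOne _ hfin
  rw [Set.mem_union, not_or, Set.mem_iUnion, not_exists] at hv
  obtain ⟨hPm, hPd⟩ := monic_of_sys ρ J hsys hv.1
  have key : ∀ i, (q v : ℚ_[p i]) ≠ 0 ∧ Con i ((P v).map (algebraMap ℚ ℚ_[p i])) (q v : ℚ_[p i]) ∧
      ∀ x : AlgebraicClosure ℚ_[p i], aeval x ((P v).map (algebraMap ℚ ℚ_[p i])) = 0 →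
        x ≠ 0 ∧ aeval (algebraMap ℚ_[p i] (AlgebraicClosure ℚ_[p i]) (q v : ℚ_[p i]) / x)
          ((P v).map (algebraMap ℚ ℚ_[p i])) = 0 := by
    intro i
    obtain ⟨k, hk, hclose⟩ := hOσ σ⁻¹ hσO i
    obtain ⟨hP, hq⟩ := (hsys (p i)).2.2.2.2 v hv.1 (hv.2 i) σ hσ
    obtain ⟨hc, hc1, hrc, hinv⟩ := hchar i k (ρ (p i) σ⁻¹) (q v : ℚ_[p i]) ((hk₁' i).trans hk)
      hq (fun a b => (hclose a b).trans_le (hdδ i))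
    rw [hP] at hrc hinv
    refine ⟨hc, ?_, hinv⟩
    exact hcon i k _ _ ((hk₁'' i).trans hk) (by omega) (hPm.map _) (by rw [natDegree_map]; exact hPd)
      hc hc1 hinv hrc
  obtain ⟨i₀⟩ := ‹Nonempty I›
  refine ⟨v, hv.1, ?_, hv.2, fun i => (key i).2⟩
  intro h
  exact (key i₀).1 (by rw [h, Rat.cast_zero])

end

end Pool.Agent.Y142.ZS
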