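import Pool.Agent.Y142.ZI.Stm

set_option autoImplicit false

/-!
Project Y142-ZS (owner helper142): a zero-one law in `ℓ` for open image in the symplectic group
(sequel of project Y142-ZI). Statements of the self-contained sub-tasks.
-/

open Matrix Polynomial Filter Topology NumberField IsDedekindDomain
open Pool.Agent.Y142.ZO Pool.Agent.Y142.ZI

namespace Pool.Agent.Y142.ZS

section alg
variable {F : Type} [Field F] {N : ℕ}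

/-- `T` belongs to the Lie algebra of the isometry group of `J` -/
def SpLie (J T : Matrix (Fin N) (Fin N) F) : Prop := Tᵀ * J + J * T = 0

/-- `g` is a similitude with multiplier `c` -/
def Sim (J g : Matrix (Fin N) (Fin N) F) (c : F) : Prop := gᵀ * J * g = c • J

end alg

/-- the Lie algebra of the image contains the full symplectic Lie algebra -/
def FullSp (ℓ : ℕ) [Fact ℓ.Prime] {N : ℕ} {G : Type} [Group G]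
    (ρ : G →* Matrix (Fin N) (Fin N) ℚ_[ℓ]) (J : Matrix (Fin N) (Fin N) ℚ_[ℓ]) : Prop :=
  ∀ X, SpLie J X → IsTangent ℓ ρ X

/-- the image contains a neighbourhood of `1` in the symplectic group of `J` -/
def OpenSp (ℓ : ℕ) [Fact ℓ.Prime] {N : ℕ} {G : Type} [Group G]
    (ρ : G →* Matrix (Fin N) (Fin N) ℚ_[ℓ]) (J : Matrix (Fin N) (Fin N) ℚ_[ℓ]) : Prop :=
  ∃ ε : ℝ, 0 < ε ∧ ∀ g : Matrix (Fin N) (Fin N) ℚ_[ℓ], gᵀ * J * g = J →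
    (∀ i j, ‖(g - 1) i j‖ < ε) → ∃ σ, ρ σ = g

/-- task TANS -/
def S_TANS : Prop := ∀ (ℓ : ℕ) [Fact ℓ.Prime] (N : ℕ) (G : Type) [Group G]
  (ρ : G →* Matrix (Fin N) (Fin N) ℚ_[ℓ]) (J : Matrix (Fin N) (Fin N) ℚ_[ℓ]), J.det ≠ 0 →
  (∀ g, ∃ c, Sim J (ρ g) c) → ∀ X, IsTangent ℓ ρ X → ∃ μ : ℚ_[ℓ], Xᵀ * J + J * X = μ • J

/-- task OPENS -/
def S_OPENS : Prop := ∀ (ℓ : ℕ) [Fact ℓ.Prime] (N : ℕ) (G : Type) [Group G] [TopologicalSpace G]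
  [IsTopologicalGroup G] [CompactSpace G] (ρ : G →* Matrix (Fin N) (Fin N) ℚ_[ℓ]), Continuous ρ →
  ∀ J : Matrix (Fin N) (Fin N) ℚ_[ℓ], Jᵀ = -J → J.det ≠ 0 → (∀ g, ∃ c, Sim J (ρ g) c) →
    FullSp ℓ ρ J → OpenSp ℓ ρ J

/-- task CAYS -/
def S_CAYS : Prop := ∀ (ℓ : ℕ) [Fact ℓ.Prime] (N : ℕ) (G : Type) [Group G]
  (ρ : G →* Matrix (Fin N) (Fin N) ℚ_[ℓ]) (J : Matrix (Fin N) (Fin N) ℚ_[ℓ]), Jᵀ = -J →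
  J.det ≠ 0 → OpenSp ℓ ρ J → FullSp ℓ ρ J

/-- task BADIRR -/
def S_BADIRR : Prop := ∀ (ℓ : ℕ) [Fact ℓ.Prime] (N : ℕ) (G : Type) [Group G]
  [TopologicalSpace G] [IsTopologicalGroup G] [CompactSpace G]
  (ρ : G →* Matrix (Fin N) (Fin N) ℚ_[ℓ]), Continuous ρ →
  ∀ σ : G, Irreducible (ρ σ).charpoly →
    (∀ k : ℕ, 0 < k → ∀ x y : AlgebraicClosure ℚ_[ℓ], aeval x (ρ σ).charpoly = 0 →
      aeval y (ρ σ).charpoly = 0 → x ^ k = y ^ k → x = y) →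
    StronglyIrreducible ℓ ρ

/-- the quotients of different roots of `Q` are different, except for `x / y = (c / y) / (c / x)` -/
def Generic {F : Type} [Field F] (Q : F[X]) (c : F) : Prop :=
  ∀ x y z w : AlgebraicClosure F, aeval x Q = 0 → aeval y Q = 0 → aeval z Q = 0 → aeval w Q = 0 →
    x ≠ y → x * w = z * y → (z = x ∧ w = y) ∨ (z * y = algebraMap F _ c ∧ w * x = algebraMap F _ c)

/-- task ROOT -/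
def S_ROOT : Prop := ∀ (F : Type) [Field F] [CharZero F] (N : ℕ)
  (J g : Matrix (Fin N) (Fin N) F) (c : F) (𝔤 : Submodule F (Matrix (Fin N) (Fin N) F)),
  Jᵀ = -J → J.det ≠ 0 → c ≠ 0 → Sim J g c → g.charpoly.Splits → g.charpoly.Separable →
  Generic g.charpoly c →
  (∀ Z ∈ 𝔤, ∃ μ : F, Zᵀ * J + J * Z = μ • J) → (∀ X ∈ 𝔤, ∀ Y ∈ 𝔤, X * Y - Y * X ∈ 𝔤) →
  (∀ Z ∈ 𝔤, g * Z * g⁻¹ ∈ 𝔤) →
  (∀ W : Submodule F (Fin N → F), (∀ Z ∈ 𝔤, ∀ w ∈ W, Z *ᵥ w ∈ W) → W = ⊥ ∨ W = ⊤) →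
  ∀ X, SpLie J X → X ∈ 𝔤

/-- task SFORM: every even polynomial is the characteristic polynomial of an element of the
symplectic Lie algebra -/
def S_SFORM : Prop := ∀ (F : Type) [Field F] [CharZero F] (N : ℕ) (J : Matrix (Fin N) (Fin N) F)
  (p : F[X]), Jᵀ = -J → J.det ≠ 0 → p.Monic → p.natDegree = N → p.comp (-X) = p →
  ∃ T : Matrix (Fin N) (Fin N) F, SpLie J T ∧ T.charpoly = p

/-- task CHARS: the characteristic polynomial of a similitude near `1` -/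
def S_CHARS : Prop := ∀ (ℓ : ℕ) [Fact ℓ.Prime] (N : ℕ), 0 < N →
  ∀ (J T : Matrix (Fin N) (Fin N) ℚ_[ℓ]), Jᵀ = -J → J.det ≠ 0 → SpLie J T →
  ∀ ε : ℝ, 0 < ε → ∃ (δ : ℝ) (k₀ : ℕ), 0 < δ ∧
  ∀ (k : ℕ) (g : Matrix (Fin N) (Fin N) ℚ_[ℓ]) (c : ℚ_[ℓ]), k₀ ≤ k → Sim J g c →
    (∀ a b, ‖((((ℓ : ℚ_[ℓ]) ^ k)⁻¹ • (g - 1)) - T) a b‖ < δ) →
    c ≠ 0 ∧ ‖c - 1‖ < ε * ((ℓ : ℝ) ^ k)⁻¹ ∧
      (∀ j, ‖(resc ℓ k g.charpoly - T.charpoly).coeff j‖ < ε) ∧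
      ∀ x : AlgebraicClosure ℚ_[ℓ], aeval x g.charpoly = 0 →
        x ≠ 0 ∧ aeval (algebraMap ℚ_[ℓ] (AlgebraicClosure ℚ_[ℓ]) c / x) g.charpoly = 0

/-- task TWIST: division of the roots by a square root of the multiplier -/
def S_TWIST : Prop := ∀ (ℓ : ℕ) [Fact ℓ.Prime], ℓ ≠ 2 → ∀ (R₀ : ℚ_[ℓ][X]), R₀.Monic →
  ∀ ε : ℝ, 0 < ε → ∃ ε' : ℝ, 0 < ε' ∧ ∀ (k : ℕ) (Q : ℚ_[ℓ][X]) (c : ℚ_[ℓ]), 0 < k → Q.Monic →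
    Q.natDegree = R₀.natDegree → c ≠ 0 → ‖c - 1‖ < ε' * ((ℓ : ℝ) ^ k)⁻¹ →
    (∀ x : AlgebraicClosure ℚ_[ℓ], aeval x Q = 0 →
      x ≠ 0 ∧ aeval (algebraMap ℚ_[ℓ] (AlgebraicClosure ℚ_[ℓ]) c / x) Q = 0) →
    (∀ j, ‖(resc ℓ k Q - R₀).coeff j‖ < ε') →
    ∃ (s : ℚ_[ℓ]) (Q' : ℚ_[ℓ][X]), s * s = c ∧ Q'.Monic ∧ Q'.natDegree = R₀.natDegree ∧
      (∀ x : AlgebraicClosure ℚ_[ℓ], aeval x Q' = 0 → x ≠ 0 ∧ aeval x⁻¹ Q' = 0) ∧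
      (∀ j, ‖(resc ℓ k Q' - R₀).coeff j‖ < ε) ∧
      ∀ x : AlgebraicClosure ℚ_[ℓ],
        aeval x Q' = 0 ↔ aeval (algebraMap ℚ_[ℓ] (AlgebraicClosure ℚ_[ℓ]) s * x) Q = 0

/-- task TYPG: local type split and generic -/
def S_TYPG : Prop := ∀ (ℓ : ℕ) [Fact ℓ.Prime] (n : ℕ),
  ∃ R₀ : ℚ_[ℓ][X], R₀.Monic ∧ R₀.natDegree = 2 * n ∧ R₀.comp (-X) = R₀ ∧
  ∃ (ε : ℝ) (k₀ : ℕ), 0 < ε ∧ ∀ (k : ℕ) (Q : ℚ_[ℓ][X]) (c : ℚ_[ℓ]), k₀ ≤ k → Q.Monic →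
    Q.natDegree = 2 * n → c ≠ 0 → ‖c - 1‖ < ε * ((ℓ : ℝ) ^ k)⁻¹ →
    (∀ x : AlgebraicClosure ℚ_[ℓ], aeval x Q = 0 →
      x ≠ 0 ∧ aeval (algebraMap ℚ_[ℓ] (AlgebraicClosure ℚ_[ℓ]) c / x) Q = 0) →
    (∀ j, ‖(resc ℓ k Q - R₀).coeff j‖ < ε) →
    Q.Splits ∧ Q.Separable ∧ Generic Q c

/-- task TYPCU: local type full cycle, unramified -/
def S_TYPCU : Prop := ∀ (ℓ : ℕ) [Fact ℓ.Prime], ℓ ≠ 2 → ∀ n : ℕ, 0 < n →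
  ∃ R₀ : ℚ_[ℓ][X], R₀.Monic ∧ R₀.natDegree = 2 * n ∧ R₀.comp (-X) = R₀ ∧
  ∃ ε : ℝ, 0 < ε ∧ ∀ (k : ℕ) (Q : ℚ_[ℓ][X]), 0 < k → Q.Monic → Q.natDegree = 2 * n →
    (∀ j, ‖(resc ℓ k Q - R₀).coeff j‖ < ε) →
    Q.Separable ∧
    (∀ (j : ℕ) (x y : AlgebraicClosure ℚ_[ℓ]), 0 < j → aeval x Q = 0 → aeval y Q = 0 →
      x ^ j = y ^ j → x = y) ∧
    ∃ τ : AlgebraicClosure ℚ_[ℓ] ≃ₐ[ℚ_[ℓ]] AlgebraicClosure ℚ_[ℓ],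
      ∀ x y : AlgebraicClosure ℚ_[ℓ], aeval x Q = 0 → aeval y Q = 0 → ∃ i : ℕ, (τ ^ i) x = y

/-- every multilinear form which is invariant under the isometries in an open subgroup is a
linear combination of products `∏ J(v_j, v_{π j})`, for perfect matchings `π` -/
def FormsFromJ (ℓ : ℕ) [Fact ℓ.Prime] {N : ℕ} {G : Type} [Group G] [TopologicalSpace G]
    (ρ : G →* Matrix (Fin N) (Fin N) ℚ_[ℓ]) (J : Matrix (Fin N) (Fin N) ℚ_[ℓ]) : Prop :=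
  ∀ (k : ℕ) (φ : MultilinearMap ℚ_[ℓ] (fun _ : Fin k => Fin N → ℚ_[ℓ]) ℚ_[ℓ]) (U : Subgroup G),
    IsOpen (U : Set G) →
    (∀ σ ∈ U, (ρ σ)ᵀ * J * ρ σ = J → ∀ v, φ (fun j => ρ σ *ᵥ v j) = φ v) →
    (fun v => φ v) ∈ Submodule.span ℚ_[ℓ] {f : (Fin k → Fin N → ℚ_[ℓ]) → ℚ_[ℓ] |
      ∃ π : Equiv.Perm (Fin k), (∀ j, π (π j) = j) ∧ (∀ j, π j ≠ j) ∧
        ∀ v, f v = ∏ j with j < π j, (v j ⬝ᵥ J *ᵥ v (π j))}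

/-- task TENSS -/
def S_TENSS : Prop := ∀ (ℓ : ℕ) [Fact ℓ.Prime] (N : ℕ) (G : Type) [Group G]
  [TopologicalSpace G] [IsTopologicalGroup G] [CompactSpace G]
  (ρ : G →* Matrix (Fin N) (Fin N) ℚ_[ℓ]), Continuous ρ →
  ∀ J : Matrix (Fin N) (Fin N) ℚ_[ℓ], Jᵀ = -J → J.det ≠ 0 →
  OpenSp ℓ ρ J → FormsFromJ ℓ ρ J

end Pool.Agent.Y142.ZS
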